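import Pool.Agent.Lib.MP_061452_co.TC.Lab

set_option autoImplicit false

namespace Pool.Agent.Lib.MP_061452_co.TC

open Function

variable {V E α : Type} {ends : E → Sym2 V} {S : Set E} {σ : Equiv.Perm α} {v : α → V}
  {ε t : α → E} {w : α → V}

theorem four_le_ncard [Finite V] {T : Set V} {a b c d : V} (ha : a ∈ T) (hb : b ∈ T) (hc : c ∈ T)
    (hd : d ∈ T) (h1 : a ≠ b) (h2 : a ≠ c) (h3 : a ≠ d) (h4 : b ≠ c) (h5 : b ≠ d) (h6 : c ≠ d) :
    4 ≤ T.ncard := by
  have h := three_le_ncard (T := T \ {a}) ⟨hb, h1.symm⟩ ⟨hc, h2.symm⟩ ⟨hd, h3.symm⟩ h4 h5 h6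
  have := Set.ncard_diff_singleton_add_one ha
  omega

theorem attach_mem (h : Enum ends S σ v ε) (ht : Third ends S v t w) {p q : α}
    (n : ¬ Touches ends S (w p)) (s : Same ends S t w p q) : v q ∈ Attach ends S (w p) := by
  have hon : Touches ends S (v q) := h.touches.2 ⟨q, rfl⟩
  refine ⟨hon, w q, ?_⟩
  have e : ∃ e, ends e = s(w q, v q) := ⟨t q, by rw [(ht q).2.1, Sym2.eq_swap]⟩
  rcases s with k | ⟨_, k⟩
  · rcases ht.chord h k with j | j
    · rw [j] at e ⊢; exact ⟨n, .refl _, e⟩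
    · exact absurd (j ▸ hon) n
  · exact ⟨outside_reach k n, k, e⟩

theorem partner (hl : ∀ e, ¬ (ends e).IsDiag) (h : Enum ends S σ v ε) (ht : Third ends S v t w)
    (h2 : ∀ x u u' : V, u ≠ x → u' ≠ x → (SimpleGraph.fromRel (fun a b : V =>
      a ≠ x ∧ b ≠ x ∧ ∃ e : E, ends e = s(a, b))).Reachable u u') (p : α) :
    ∃ q, q ≠ p ∧ Same ends S t w p q := by
  have nw : w p ≠ v p := fun k => hl (t p) (by rw [(ht p).2.1, k]; exact Sym2.mk_isDiag_iff.2 rfl)
  by_cases k : Touches ends S (w p)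
  · obtain ⟨q, hq⟩ := h.touches.1 k
    exact ⟨q, fun j => nw (by rw [← hq, j]),
      Or.inl ((ht q).2.2 _ (ht p).1 (by rw [(ht p).2.1, hq]; simp))⟩
  obtain ⟨wk⟩ := h2 (v p) (w p) (v (σ.symm p)) nw (fun j => h.ne hl p (h.1 j))
  have key : ∀ a b (_ : (SimpleGraph.fromRel (fun a b : V =>
      a ≠ v p ∧ b ≠ v p ∧ ∃ e : E, ends e = s(a, b))).Walk a b), Touches ends S b →
      (Outside ends S).Reachable (w p) a → ∃ q, q ≠ p ∧ Same ends S t w p q := by
    intro a b wk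
    induction wk with
    | nil => exact fun hb r => absurd hb (outside_reach r k)
    | @cons a a' b hadj _ ih =>
      intro hb r
      have na := outside_reach r k
      rw [SimpleGraph.fromRel_adj] at hadj
      have : a' ≠ v p ∧ ∃ e, ends e = s(a, a') := by
        rcases hadj.2 with j | ⟨j1, _, e, j⟩
        exacts [j.2, ⟨j1, e, by rw [j, Sym2.eq_swap]⟩]
      obtain ⟨n1, e, he⟩ := this
      by_cases k' : Touches ends S a'
      · obtain ⟨q, rfl⟩ := h.touches.1 k'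
        have := (ht.other (fun j => na ⟨e, j, by rw [he]; simp⟩) he).2
        exact ⟨q, fun j => n1 (by rw [j]), Or.inr ⟨k, this ▸ r⟩⟩
      · exact ih hb (r.trans (SimpleGraph.Adj.reachable
          ((SimpleGraph.fromRel_adj _ _ _).2 ⟨hadj.1, Or.inl ⟨na, k', e, he⟩⟩)))
  exact key _ _ wk (h.touches.2 ⟨_, rfl⟩) (.refl _)

theorem attach_single [Fintype E] (hc : ∀ x : V, {e : E | x ∈ ends e}.ncard = 3) {q : V}
    (h : ∀ y, (Outside ends S).Reachable q y → y = q) : (Attach ends S q).ncard ≤ 3 := by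
  classical
  have ex : ∀ a, ∃ e : Option E, a ∈ Attach ends S q → ∃ f, e = some f ∧ ends f = s(q, a) := by
    intro a
    by_cases k : a ∈ Attach ends S q
    · obtain ⟨_, q', _, r, e, he⟩ := k
      exact ⟨some e, fun _ => ⟨e, rfl, h q' r ▸ he⟩⟩
    · exact ⟨none, fun j => absurd j k⟩
  choose f hf using ex
  rw [← hc q, ← Set.ncard_image_of_injective _ (Option.some_injective E)]
  refine Set.ncard_le_ncard_of_injOn f (fun a ha => ?_) (fun a ha b hb k => ?_)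
  · obtain ⟨e, k1, k2⟩ := hf a ha
    exact ⟨e, by show q ∈ ends e; rw [k2]; simp, k1.symm⟩
  · obtain ⟨e, k1, k2⟩ := hf a ha
    obtain ⟨e', j1, j2⟩ := hf b hb
    rw [k1, j1, Option.some_inj] at k
    rw [k, j2] at k2
    exact (Sym2.congr_right.1 k2).symm

theorem three_claws [Fintype V] [Fintype E] (hl : ∀ e, ¬ (ends e).IsDiag)
    (hc : ∀ x : V, {e : E | x ∈ ends e}.ncard = 3)
    (h2 : ∀ x u u' : V, u ≠ x → u' ≠ x → (SimpleGraph.fromRel (fun a b : V =>
      a ≠ x ∧ b ≠ x ∧ ∃ e : E, ends e = s(a, b))).Reachable u u')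
    (hS : IsCircuit ends S) {T : Set V} (hT : T.ncard ≤ 3)
    (h34 : ∀ q, ¬ Touches ends S q →
      (3 ≤ (Attach ends S q).ncard → ∃ x ∈ T, (Outside ends S).Reachable q x) ∧
      (4 ≤ (Attach ends S q).ncard → ∃ x ∈ T, ∃ y ∈ T, x ≠ y ∧
        (Outside ends S).Reachable q x ∧ (Outside ends S).Reachable q y)) :
    ∃ F, F ≠ S ∧ IsCircuit ends F ∧ IsCircuit ends (symmDiff S F) ∧ BridgesAttach ends S F := by
  classical
  obtain ⟨e0, he0⟩ := hS.1
  obtain ⟨α, _, σ, g, r, v, ε, _, e2, e3, e4, e5, hr⟩ :=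
    exists_enum hl hS (x := (ends e0).out.1) ⟨e0, he0, Sym2.out_fst_mem _⟩
  have h : Enum ends S σ v ε := ⟨e2, e3, e4, e5⟩
  choose t w ht using fun p => exists_third hc hS (h.touches.2 ⟨p, rfl⟩)
  have eqv := same_equiv h ht (X := S) le_rfl
  have o3 : ∀ p, Big3 (Same ends S t w) p → ¬ Touches ends S (w p) ∧
      ∃ x ∈ T, (Outside ends S).Reachable (w p) x := by
    rintro p ⟨q, r, n1, n2, n3, s1, s2⟩
    have i := three_attach h ht le_rfl n1 n2 n3 s1 s2
    exact ⟨i.1, (h34 _ i.1).1 (i.2.trans (Set.ncard_le_ncard Set.inter_subset_left))⟩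
  have o4 : ∀ p, Big4 (Same ends S t w) p → ¬ Touches ends S (w p) ∧ ∃ x ∈ T, ∃ y ∈ T, x ≠ y ∧
      (Outside ends S).Reachable (w p) x ∧ (Outside ends S).Reachable (w p) y := by
    rintro p ⟨q, r, s, n1, n2, n3, n4, n5, n6, s1, s2, s3⟩
    have i := (three_attach h ht le_rfl n1 n2 n4 s1 s2).1
    exact ⟨i, (h34 _ i).2 (four_le_ncard (attach_mem h ht i (eqv.refl p)) (attach_mem h ht i s1)
      (attach_mem h ht i s2) (attach_mem h ht i s3) (fun k => n1 (h.1 k).symm)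
      (fun k => n2 (h.1 k).symm) (fun k => n3 (h.1 k).symm) (fun k => n4 (h.1 k))
      (fun k => n5 (h.1 k)) (fun k => n6 (h.1 k)))⟩
  have ne : ∀ {p q x y}, ¬ Touches ends S (w p) → ¬ Same ends S t w p q →
      (Outside ends S).Reachable (w p) x → (Outside ends S).Reachable (w q) y → x ≠ y :=
    fun n k r1 r2 j => k (Or.inr ⟨n, r1.trans (j ▸ r2.symm)⟩)
  obtain ⟨g', c, ρ, hv, ⟨p0, h0⟩, k1, k2, k3⟩ := fits (cyc_of_rank hr) eqv (g := σ.symm g)
    (by rw [Equiv.apply_symm_apply]; exact (h.ne hl g).symm) (partner hl h ht h2)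
    (fun p q r s b1 b2 b3 b4 n1 n2 n3 => by
      by_contra n
      simp only [not_or] at n
      obtain ⟨i1, x1, m1, r1⟩ := o3 p b1
      obtain ⟨i2, x2, m2, r2⟩ := o3 q b2
      obtain ⟨i3, x3, m3, r3⟩ := o3 r b3
      obtain ⟨_, x4, m4, r4⟩ := o3 s b4
      have := four_le_ncard m1 m2 m3 m4 (ne i1 n1 r1 r2) (ne i1 n2 r1 r3) (ne i1 n.1 r1 r4)
        (ne i2 n3 r2 r3) (ne i2 n.2.1 r2 r4) (ne i3 n.2.2 r3 r4)
      omega)
    (fun p q r b1 b2 b3 n1 n2 => by
      by_contra n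
      obtain ⟨i1, x1, m1, y1, m1', n0, r1, r1'⟩ := o4 p b1
      obtain ⟨i2, x2, m2, r2⟩ := o3 q b2
      obtain ⟨_, x3, m3, r3⟩ := o3 r b3
      have := four_le_ncard m1 m1' m2 m3 n0 (ne i1 n1 r1 r2) (ne i1 n2 r1 r3) (ne i1 n1 r1' r2)
        (ne i1 n2 r1' r3) (ne i2 n r2 r3)
      omega)
    (fun p q b1 b2 => by
      by_contra n
      obtain ⟨i1, x1, m1, y1, m1', n0, r1, r1'⟩ := o4 p b1
      obtain ⟨_, x2, m2, y2, m2', n0', r2, r2'⟩ := o4 q b2
      have := four_le_ncard m1 m1' m2 m2' n0 (ne i1 n r1 r2) (ne i1 n r1 r2') (ne i1 n r1' r2)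
        (ne i1 n r1' r2') n0'
      omega)
  obtain ⟨F, _, hF⟩ := realise (P := ∅) (Root := fun _ => False) (p0 := p0) hl hc hS h ht hv
    (Set.empty_disjoint _) (fun _ k => k.elim) (fun _ _ k => k.elim) (Or.inl rfl)
    (fun p hp _ => by rw [Set.union_empty]; exact k1 p hp)
    (fun p q hp hq _ _ => by rw [Set.union_empty]; exact k2 p q hp hq)
    (fun p q hp hq => by rw [Set.union_empty]; exact k3 p q hp hq) h0
  exact ⟨F, hF⟩

theorem three_missing [Fintype V] [Fintype E] (hc : ∀ x : V, {e : E | x ∈ ends e}.ncard = 3)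
    (q : V) (hq : ¬ Touches ends S q) :
    (3 ≤ (Attach ends S q).ncard →
      ∃ x ∈ {x : V | ¬ Touches ends S x}, (Outside ends S).Reachable q x) ∧
    (4 ≤ (Attach ends S q).ncard → ∃ x ∈ {x : V | ¬ Touches ends S x},
      ∃ y ∈ {x : V | ¬ Touches ends S x}, x ≠ y ∧
        (Outside ends S).Reachable q x ∧ (Outside ends S).Reachable q y) := by
  refine ⟨fun _ => ⟨q, hq, .refl _⟩, fun k => ?_⟩
  by_contra n
  have := attach_single hc (S := S) (q := q) (fun y r => by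
    by_contra j
    exact n ⟨q, hq, y, outside_reach r hq, Ne.symm j, .refl _, r⟩)
  omega

end Pool.Agent.Lib.MP_061452_co.TC
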