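import Pool.Agent.Lib.MP_061452_co.TC.Ids

set_option autoImplicit false

namespace Pool.Agent.Lib.MP_061452_co.TC

theorem c_U3_p : allSt 3 (okP (px U3
    (px (rel 0x10 [2] I1)
    (px (rel 0x20 [1] I1)
    (rel 0x21 [0] I1))))) = true := by
  decide +kernel

theorem c_I2_p : allSt 5 (okP (px I2
    (px (rel 0x10 [2, 3, 4] I1)
    (px (rel 0x3210 [4] (ch 2 3 I1))
    (px (rel 0x4210 [3] (ch 2 3 I1))
    (rel 0x4310 [2] (ch 2 3 I1))))))) = true := by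
  decide +kernel

theorem c_V3_s : allSt 4 (okS 0x3120 V3) = true := by
  decide +kernel

theorem c_V3_t : allSt 4 (okT (px V3
    (rel 0x30 [1, 2] I1))) = true := by
  decide +kernel

theorem c_V3_d : allSt 4 (okP (px (der 2 V3)
    (px (rel 0x10 [2, 3] I1)
    (rel 0x30 [1, 2] I1)))) = true := by
  decide +kernel

theorem c_V3_l3 : allSt 4 (okA 3 2 (px (D 3 V3)
    (px (rel 0x20 [1, 3] I1)
    (rel 0x30 [1, 2] I1)))) = true := by
  decide +kernel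

theorem c_V4_s : allSt 5 (okS 0x43120 V4) = true := by
  decide +kernel

theorem c_V4_t : allSt 5 (okT (px V4
    (rel 0x4310 [2] V3))) = true := by
  decide +kernel

theorem c_V4_d : allSt 5 (okP (px (der 2 V4)
    (rel 0x4310 [2] V3))) = true := by
  decide +kernel

theorem c_V4_l3 : allSt 5 (okA 3 2 (px (D 3 V4)
    (px (rel 0x4210 [3] V3)
    (rel 0x4310 [2] V3)))) = true := by
  decide +kernel

theorem c_V4_l4 : allSt 5 (okA 4 2 (px (D 4 V4)
    (px (rel 0x3210 [4] V3)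
    (rel 0x4310 [2] V3)))) = true := by
  decide +kernel

theorem c_M4_p : allSt 4 (okP (px M4
    (px (rel 0x3210 [] (ch 2 3 I1))
    (px (rel 0x3120 [] (ch 2 3 I1))
    (px (rel 0x2130 [] (ch 2 3 I1))
    (rel 0x3210 [] V3)))))) = true := by
  decide +kernel

theorem c_P2_s : allSt 6 (okS 0x543120 P2) = true := by
  decide +kernel

theorem c_P2_t : allSt 6 (okT (px P2
    (rel 0x543 [0, 1, 2] U3))) = true := by
  decide +kernel

theorem c_P2_d : allSt 6 (okP (px (der 2 P2)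
    (px (rel 0x10543 [2] (ch 3 4 U3))
    (rel 0x54310 [2] I2)))) = true := by
  decide +kernel

theorem c_P2_l3 : allSt 6 (okA 3 2 (px (D 3 P2)
    (px (rel 0x5410 [2, 3] (ch 2 3 I1))
    (px (rel 0x1043 [2, 5] (ch 2 3 I1))
    (px (rel 0x1053 [2, 4] (ch 2 3 I1))
    (px (rel 0x54210 [3] (ch 3 4 U3))
    (px (rel 0x54310 [2] I2)
    (rel 0x21054 [3] I2)))))))) = true := by
  decide +kernel

theorem c_P2_l4 : allSt 6 (okA 4 2 (px (D 4 P2)
    (px (rel 0x5320 [1, 4] (ch 2 3 I1))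
    (px (rel 0x5321 [0, 4] (ch 2 3 I1))
    (px (rel 0x1043 [2, 5] (ch 2 3 I1))
    (px (rel 0x1054 [2, 3] (ch 2 3 I1))
    (px (rel 0x54310 [2] I2)
    (rel 0x21053 [4] I2)))))))) = true := by
  decide +kernel

theorem c_P2_l5 : allSt 6 (okA 5 2 (px (D 5 P2)
    (px (rel 0x4310 [2, 5] (ch 2 3 I1))
    (px (rel 0x1053 [2, 4] (ch 2 3 I1))
    (px (rel 0x1054 [2, 3] (ch 2 3 I1))
    (px (rel 0x43210 [5] (ch 3 4 U3))
    (px (rel 0x54310 [2] I2)
    (rel 0x21043 [5] I2)))))))) = true := by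
  decide +kernel

theorem c_G4_p : allSt 6 (okP (px G4
    (px (rel 0x5210 [3, 4] (ch 2 3 I1))
    (px (rel 0x4310 [2, 5] (ch 2 3 I1))
    (px (rel 0x1052 [3, 4] (ch 2 3 I1))
    (px (rel 0x1053 [2, 4] (ch 2 3 I1))
    (px (rel 0x1054 [2, 3] (ch 2 3 I1))
    (px (rel 0x431052 [] (ch 4 5 (ch 2 3 I1)))
    (px (rel 0x521043 [] (ch 4 5 (ch 2 3 I1)))
    (px (rel 0x10432 [5] (ch 3 4 U3))
    (px (rel 0x43210 [5] I2)
    (px (rel 0x54310 [2] I2)
    (px (rel 0x105432 [] (ch 4 5 V3))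
    (px (rel 0x104325 [] (ch 4 5 V3))
    (px (rel 0x54320 [1] V4)
    (px (rel 0x54321 [0] V4)
    (px (rel 0x543210 [] P2)
    (px (rel 0x542310 [] P2)
    (px (rel 0x532410 [] P2)
    (rel 0x432510 [] P2)))))))))))))))))))) = true := by
  decide +kernel

theorem c_W6_p : allSt 6 (okP (px W6
    (px (rel 0x40 [1, 2, 3, 5] I1)
    (px (rel 0x50 [1, 2, 3, 4] I1)
    (px (rel 0x3210 [4, 5] V3)
    (px (rel 0x5410 [2, 3] V3)
    (px (rel 0x5420 [1, 3] V3)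
    (px (rel 0x5431 [0, 2] V3)
    (px (rel 0x215430 [] (ch 4 5 V3))
    (px (rel 0x205431 [] (ch 4 5 V3))
    (px (rel 0x43210 [5] V4)
    (px (rel 0x53210 [4] V4)
    (px (rel 0x54210 [3] V4)
    (px (rel 0x54301 [2] V4)
    (px (rel 0x54321 [0] V4)
    (px (rel 0x543120 [] G4)
    (rel 0x543021 [] G4))))))))))))))))) = true := by
  decide +kernel

theorem c_XI_s : allSt 7 (okS 0x6543120 XI) = true := by
  decide +kernel

theorem c_XI_t : allSt 7 (okT (px XI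
    (px (rel 0x6543 [0, 1, 2] (ch 2 3 I1))
    (rel 0x4365 [0, 1, 2] (ch 2 3 I1))))) = true := by
  decide +kernel

theorem c_XI_d : allSt 7 (okP (px (der 2 XI)
    (px (rel 0x651043 [2] (ch 4 5 (ch 2 3 I1)))
    (px (rel 0x431065 [2] (ch 4 5 (ch 2 3 I1)))
    (rel 0x654310 [2] G4))))) = true := by
  decide +kernel

theorem c_XI_l3 : allSt 7 (okA 3 2 (px (D 3 XI)
    (px (rel 0x6520 [1, 3, 4] (ch 2 3 I1))
    (px (rel 0x6521 [0, 3, 4] (ch 2 3 I1))
    (px (rel 0x1054 [2, 3, 6] (ch 2 3 I1))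
    (px (rel 0x1064 [2, 3, 5] (ch 2 3 I1))
    (px (rel 0x65410 [2, 3] I2)
    (px (rel 0x21065 [3, 4] I2)
    (px (rel 0x6541 [0, 2, 3] V3)
    (px (rel 0x206541 [3] (ch 4 5 V3))
    (px (rel 0x106534 [2] (ch 4 5 V3))
    (px (rel 0x65410 [2, 3] V4)
    (px (rel 0x65421 [0, 3] V4)
    (px (rel 0x65104 [2, 3] V4)
    (px (rel 0x654310 [2] G4)
    (px (rel 0x654120 [3] G4)
    (px (rel 0x645021 [3] W6)
    (rel 0x210465 [3] W6)))))))))))))))))) = true := by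
  decide +kernel

theorem c_XI_l4 : allSt 7 (okA 4 2 (px (D 4 XI)
    (px (rel 0x3106 [2, 4, 5] V3)
    (px (rel 0x316520 [4] (ch 4 5 V3))
    (px (rel 0x306521 [4] (ch 4 5 V3))
    (px (rel 0x106543 [2] (ch 4 5 V3))
    (px (rel 0x623105 [4] (ch 4 5 V3))
    (px (rel 0x65310 [2, 4] V4)
    (px (rel 0x65301 [2, 4] V4)
    (px (rel 0x32106 [4, 5] V4)
    (px (rel 0x53106 [2, 4] V4)
    (px (rel 0x654310 [2] G4)
    (px (rel 0x653120 [4] G4)
    (px (rel 0x653021 [4] G4)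
    (px (rel 0x531062 [4] G4)
    (px (rel 0x651032 [4] W6)
    (px (rel 0x301652 [4] W6)
    (rel 0x506123 [4] W6)))))))))))))))))) = true := by
  decide +kernel

theorem c_XI_l5 : allSt 7 (okA 5 2 (px (D 5 XI)
    (px (rel 0x4320 [1, 5, 6] (ch 2 3 I1))
    (px (rel 0x4321 [0, 5, 6] (ch 2 3 I1))
    (px (rel 0x1063 [2, 4, 5] (ch 2 3 I1))
    (px (rel 0x1064 [2, 3, 5] (ch 2 3 I1))
    (px (rel 0x64310 [2, 5] I2)
    (px (rel 0x21043 [5, 6] I2)
    (px (rel 0x6430 [1, 2, 5] V3)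
    (px (rel 0x216430 [5] (ch 4 5 V3))
    (px (rel 0x105436 [2] (ch 4 5 V3))
    (px (rel 0x64310 [2, 5] V4)
    (px (rel 0x64320 [1, 5] V4)
    (px (rel 0x64103 [2, 5] V4)
    (px (rel 0x63104 [2, 5] V4)
    (px (rel 0x654310 [2] G4)
    (px (rel 0x643021 [5] G4)
    (px (rel 0x643120 [5] W6)
    (rel 0x12643 [5] W6))))))))))))))))))) = true := by
  decide +kernel

theorem c_XI_l6 : allSt 7 (okA 6 2 (px (D 6 XI)
    (px (rel 0x4320 [1, 5, 6] (ch 2 3 I1))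
    (px (rel 0x4321 [0, 5, 6] (ch 2 3 I1))
    (px (rel 0x1053 [2, 4, 6] (ch 2 3 I1))
    (px (rel 0x1054 [2, 3, 6] (ch 2 3 I1))
    (px (rel 0x54310 [2, 6] I2)
    (px (rel 0x21043 [5, 6] I2)
    (px (rel 0x5431 [0, 2, 6] V3)
    (px (rel 0x205431 [6] (ch 4 5 V3))
    (px (rel 0x106435 [2] (ch 4 5 V3))
    (px (rel 0x54310 [2, 6] V4)
    (px (rel 0x54321 [0, 6] V4)
    (px (rel 0x43105 [2, 6] V4)
    (px (rel 0x654310 [2] G4)
    (px (rel 0x543120 [6] G4)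
    (px (rel 0x435021 [6] W6)
    (rel 0x21543 [6] W6)))))))))))))))))) = true := by
  decide +kernel

end Pool.Agent.Lib.MP_061452_co.TC
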