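import Pool.Agent.Lib.MP_061452_co.TC.Ids

set_option autoImplicit false

namespace Pool.Agent.Lib.MP_061452_co.TC

theorem c_R2_s : allSt 8 (okS 0x76543120 R2) = true := by
  decide +kernel

theorem c_R2_t : allSt 8 (okT (px R2
    (rel 0x54376 [0, 1, 2] I2))) = true := by
  decide +kernel

theorem c_R2_d : allSt 8 (okP (px (der 2 R2)
    (rel 0x1054376 [2] (ch 5 6 I2)))) = true := by
  decide +kernel

theorem c_R2_l3 : allSt 8 (okA 3 2 (px (D 3 R2)
    (px (rel 0x5421076 [3] (ch 5 6 I2))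
    (px (rel 0x1054376 [2] (ch 5 6 I2))
    (rel 0x541076 [2, 3] G4))))) = true := by
  decide +kernel

theorem c_R2_l4 : allSt 8 (okA 4 2 (px (D 4 R2)
    (px (rel 0x5321076 [4] (ch 5 6 I2))
    (px (rel 0x1054376 [2] (ch 5 6 I2))
    (rel 0x531076 [2, 4] G4))))) = true := by
  decide +kernel

theorem c_R2_l5 : allSt 8 (okA 5 2 (px (D 5 R2)
    (px (rel 0x4321076 [5] (ch 5 6 I2))
    (px (rel 0x1054376 [2] (ch 5 6 I2))
    (rel 0x431076 [2, 5] G4))))) = true := by
  decide +kernel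

theorem c_R2_l6 : allSt 8 (okA 6 2 (px (D 6 R2)
    (px (rel 0x543710 [2, 6] W6)
    (rel 0x1054376 [2] (ch 5 6 I2))))) = true := by
  decide +kernel

theorem c_R2_l7 : allSt 8 (okA 7 2 (px (D 7 R2)
    (px (rel 0x543610 [2, 7] W6)
    (rel 0x1054376 [2] (ch 5 6 I2))))) = true := by
  decide +kernel

theorem c_PS_p : allSt 8 (okP (px PS
    (px (rel 0x76543210 [] R2)
    (rel 0x76543210 [] (ch 6 7 P2))))) = true := by
  decide +kernel

end Pool.Agent.Lib.MP_061452_co.TC
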