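import Pool.Agent.Lib.MP_061452_co.TC.Ids

set_option autoImplicit false

namespace Pool.Agent.Lib.MP_061452_co.TC

theorem c_P3_s : allSt 9 (okS 0x876543120 P3) = true := by
  decide +kernel

theorem c_P3_t : allSt 9 (okT (px P3
    (rel 0x10876543 [2] PS))) = true := by
  decide +kernel

theorem c_P3_d : allSt 9 (okP (px (der 2 P3)
    (rel 0x10876543 [2] PS))) = true := by
  decide +kernel

end Pool.Agent.Lib.MP_061452_co.TC
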