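import Pool.Agent.Lib.MP_061452_co.TC.Ids

set_option autoImplicit false

namespace Pool.Agent.Lib.MP_061452_co.TC

theorem c_P3_l3 : allSt 9 (okA 3 2 (px (D 3 P3)
    (px (rel 0x54876210 [3] PS)
    (px (rel 0x10876543 [2] PS)
    (rel 0x5410876 [2, 3] XI))))) = true := by
  decide +kernel

theorem c_P3_l4 : allSt 9 (okA 4 2 (px (D 4 P3)
    (px (rel 0x53876210 [4] PS)
    (px (rel 0x10876543 [2] PS)
    (rel 0x5310876 [2, 4] XI))))) = true := by
  decide +kernel

end Pool.Agent.Lib.MP_061452_co.TC
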