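import Pool.Agent.Lib.MP_061452_co.TC.Ids

set_option autoImplicit false

namespace Pool.Agent.Lib.MP_061452_co.TC

theorem c_P3_l5 : allSt 9 (okA 5 2 (px (D 5 P3)
    (px (rel 0x43876210 [5] PS)
    (px (rel 0x10876543 [2] PS)
    (rel 0x4310876 [2, 5] XI))))) = true := by
  decide +kernel

theorem c_P3_l6 : allSt 9 (okA 6 2 (px (D 6 P3)
    (px (rel 0x87543210 [6] PS)
    (px (rel 0x10876543 [2] PS)
    (rel 0x8710543 [2, 6] XI))))) = true := by
  decide +kernel

end Pool.Agent.Lib.MP_061452_co.TC
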