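import Pool.Agent.Lib.MP_061452_co.TC.Ids

set_option autoImplicit false

namespace Pool.Agent.Lib.MP_061452_co.TC

theorem c_P3_l7 : allSt 9 (okA 7 2 (px (D 7 P3)
    (px (rel 0x86543210 [7] PS)
    (px (rel 0x10876543 [2] PS)
    (rel 0x8610543 [2, 7] XI))))) = true := by
  decide +kernel

theorem c_P3_l8 : allSt 9 (okA 8 2 (px (D 8 P3)
    (px (rel 0x76543210 [8] PS)
    (px (rel 0x10876543 [2] PS)
    (rel 0x7610543 [2, 8] XI))))) = true := by
  decide +kernel

end Pool.Agent.Lib.MP_061452_co.TC
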