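import Pool.Agent.Lib.MP_061452_co.TC.Slide
import Pool.Agent.Lib.MP_061452_co.TC.ChkA
import Pool.Agent.Lib.MP_061452_co.TC.ChkB
import Pool.Agent.Lib.MP_061452_co.TC.ChkC
import Pool.Agent.Lib.MP_061452_co.TC.ChkD
import Pool.Agent.Lib.MP_061452_co.TC.ChkE
import Pool.Agent.Lib.MP_061452_co.TC.ChkF

set_option autoImplicit false

namespace Pool.Agent.Lib.MP_061452_co.TC

variable {α : Type} [DecidableEq α] [Fintype α] {σ : Equiv.Perm α}

theorem id_I1 (hσ : Cyc σ) : Idt σ 2 I1 true := idt_pair hσ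

theorem supp_U3 : Supp 3 U3 := supp_of_cl (by decide) (fun _ _ => rfl)

theorem id_U3 (hσ : Cyc σ) : Idt σ 3 U3 true :=
  Idt.of_check (by decide) supp_U3
    (((id_I1 hσ).r 0x10 [2] (by decide)).px
    (((id_I1 hσ).r 0x20 [1] (by decide)).px
    ((id_I1 hσ).r 0x21 [0] (by decide)))) c_U3_p

theorem supp_I2 : Supp 5 I2 := supp_of_cl (by decide) (fun _ _ => rfl)

theorem id_I2 (hσ : Cyc σ) : Idt σ 5 I2 false :=
  Idt.of_check (by decide) supp_I2
    (((id_I1 hσ).r 0x10 [2, 3, 4] (by decide)).px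
    (((id_I1 hσ).ch.r 0x3210 [4] (by decide)).px
    (((id_I1 hσ).ch.r 0x4210 [3] (by decide)).px
    ((id_I1 hσ).ch.r 0x4310 [2] (by decide))))) c_I2_p

theorem supp_V3 : Supp 4 V3 := supp_of_cl (by decide) (fun _ _ => rfl)

theorem id_V3 (hσ : Cyc σ) : Idt σ 4 V3 false := by
  refine slides (kd := false) hσ (by decide) (by decide) supp_V3 0x3120 (by decide) c_V3_s
    (Idt.of_check (by decide) (supp_V3.der (by decide))
    (((id_I1 hσ).r 0x10 [2, 3] (by decide)).px
    ((id_I1 hσ).r 0x30 [1, 2] (by decide))) c_V3_d) (fun a h1 h2 => ?_)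
    (term_of_check hσ (by decide) (by decide) supp_V3
    ((id_I1 hσ).r 0x30 [1, 2] (by decide)) (by decide) c_V3_t)
  interval_cases a
  · exact leg_of_check (by decide) (by decide) (by decide)
      (supp_V3.D (by decide) (by decide))
      (((id_I1 hσ).r 0x20 [1, 3] (by decide)).px
      ((id_I1 hσ).r 0x30 [1, 2] (by decide))) rfl c_V3_l3

theorem supp_V4 : Supp 5 V4 := supp_of_cl (by decide) (fun _ _ => rfl)

theorem id_V4 (hσ : Cyc σ) : Idt σ 5 V4 false := by
  refine slides (kd := false) hσ (by decide) (by decide) supp_V4 0x43120 (by decide) c_V4_s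
    (Idt.of_check (by decide) (supp_V4.der (by decide))
    ((id_V3 hσ).r 0x4310 [2] (by decide)) c_V4_d) (fun a h1 h2 => ?_)
    (term_of_check hσ (by decide) (by decide) supp_V4
    ((id_V3 hσ).r 0x4310 [2] (by decide)) (by decide) c_V4_t)
  interval_cases a
  · exact leg_of_check (by decide) (by decide) (by decide)
      (supp_V4.D (by decide) (by decide))
      (((id_V3 hσ).r 0x4210 [3] (by decide)).px
      ((id_V3 hσ).r 0x4310 [2] (by decide))) rfl c_V4_l3
  · exact leg_of_check (by decide) (by decide) (by decide)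
      (supp_V4.D (by decide) (by decide))
      (((id_V3 hσ).r 0x3210 [4] (by decide)).px
      ((id_V3 hσ).r 0x4310 [2] (by decide))) rfl c_V4_l4

theorem supp_M4 : Supp 4 M4 := supp_of_cl (by decide) (fun _ _ => rfl)

theorem id_M4 (hσ : Cyc σ) : Idt σ 4 M4 true :=
  Idt.of_check (by decide) supp_M4
    (((id_I1 hσ).ch.r 0x3210 [] (by decide)).px
    (((id_I1 hσ).ch.r 0x3120 [] (by decide)).px
    (((id_I1 hσ).ch.r 0x2130 [] (by decide)).px
    ((id_V3 hσ).r 0x3210 [] (by decide))))) c_M4_p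

theorem supp_P2 : Supp 6 P2 := supp_of_cl (by decide) (fun _ _ => rfl)

theorem id_P2 (hσ : Cyc σ) : Idt σ 6 P2 false := by
  refine slides (kd := true) hσ (by decide) (by decide) supp_P2 0x543120 (by decide) c_P2_s
    (Idt.of_check (by decide) (supp_P2.der (by decide))
    (((id_U3 hσ).ch.r 0x10543 [2] (by decide)).px
    ((id_I2 hσ).r 0x54310 [2] (by decide))) c_P2_d) (fun a h1 h2 => ?_)
    (term_of_check hσ (by decide) (by decide) supp_P2
    ((id_U3 hσ).r 0x543 [0, 1, 2] (by decide)) (by decide) c_P2_t)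
  interval_cases a
  · exact leg_of_check (by decide) (by decide) (by decide)
      (supp_P2.D (by decide) (by decide))
      (((id_I1 hσ).ch.r 0x5410 [2, 3] (by decide)).px
      (((id_I1 hσ).ch.r 0x1043 [2, 5] (by decide)).px
      (((id_I1 hσ).ch.r 0x1053 [2, 4] (by decide)).px
      (((id_U3 hσ).ch.r 0x54210 [3] (by decide)).px
      (((id_I2 hσ).r 0x54310 [2] (by decide)).px
      ((id_I2 hσ).r 0x21054 [3] (by decide))))))) rfl c_P2_l3
  · exact leg_of_check (by decide) (by decide) (by decide)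
      (supp_P2.D (by decide) (by decide))
      (((id_I1 hσ).ch.r 0x5320 [1, 4] (by decide)).px
      (((id_I1 hσ).ch.r 0x5321 [0, 4] (by decide)).px
      (((id_I1 hσ).ch.r 0x1043 [2, 5] (by decide)).px
      (((id_I1 hσ).ch.r 0x1054 [2, 3] (by decide)).px
      (((id_I2 hσ).r 0x54310 [2] (by decide)).px
      ((id_I2 hσ).r 0x21053 [4] (by decide))))))) rfl c_P2_l4
  · exact leg_of_check (by decide) (by decide) (by decide)
      (supp_P2.D (by decide) (by decide))
      (((id_I1 hσ).ch.r 0x4310 [2, 5] (by decide)).px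
      (((id_I1 hσ).ch.r 0x1053 [2, 4] (by decide)).px
      (((id_I1 hσ).ch.r 0x1054 [2, 3] (by decide)).px
      (((id_U3 hσ).ch.r 0x43210 [5] (by decide)).px
      (((id_I2 hσ).r 0x54310 [2] (by decide)).px
      ((id_I2 hσ).r 0x21043 [5] (by decide))))))) rfl c_P2_l5

theorem supp_G4 : Supp 6 G4 := supp_of_cl (by decide) (fun _ _ => rfl)

theorem id_G4 (hσ : Cyc σ) : Idt σ 6 G4 false :=
  Idt.of_check (by decide) supp_G4
    (((id_I1 hσ).ch.r 0x5210 [3, 4] (by decide)).px
    (((id_I1 hσ).ch.r 0x4310 [2, 5] (by decide)).px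
    (((id_I1 hσ).ch.r 0x1052 [3, 4] (by decide)).px
    (((id_I1 hσ).ch.r 0x1053 [2, 4] (by decide)).px
    (((id_I1 hσ).ch.r 0x1054 [2, 3] (by decide)).px
    (((id_I1 hσ).ch.ch.r 0x431052 [] (by decide)).px
    (((id_I1 hσ).ch.ch.r 0x521043 [] (by decide)).px
    (((id_U3 hσ).ch.r 0x10432 [5] (by decide)).px
    (((id_I2 hσ).r 0x43210 [5] (by decide)).px
    (((id_I2 hσ).r 0x54310 [2] (by decide)).px
    (((id_V3 hσ).ch.r 0x105432 [] (by decide)).px
    (((id_V3 hσ).ch.r 0x104325 [] (by decide)).px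
    (((id_V4 hσ).r 0x54320 [1] (by decide)).px
    (((id_V4 hσ).r 0x54321 [0] (by decide)).px
    (((id_P2 hσ).r 0x543210 [] (by decide)).px
    (((id_P2 hσ).r 0x542310 [] (by decide)).px
    (((id_P2 hσ).r 0x532410 [] (by decide)).px
    ((id_P2 hσ).r 0x432510 [] (by decide))))))))))))))))))) c_G4_p

theorem supp_W6 : Supp 6 W6 := supp_of_cl (by decide) (fun _ _ => rfl)

theorem id_W6 (hσ : Cyc σ) : Idt σ 6 W6 false :=
  Idt.of_check (by decide) supp_W6
    (((id_I1 hσ).r 0x40 [1, 2, 3, 5] (by decide)).px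
    (((id_I1 hσ).r 0x50 [1, 2, 3, 4] (by decide)).px
    (((id_V3 hσ).r 0x3210 [4, 5] (by decide)).px
    (((id_V3 hσ).r 0x5410 [2, 3] (by decide)).px
    (((id_V3 hσ).r 0x5420 [1, 3] (by decide)).px
    (((id_V3 hσ).r 0x5431 [0, 2] (by decide)).px
    (((id_V3 hσ).ch.r 0x215430 [] (by decide)).px
    (((id_V3 hσ).ch.r 0x205431 [] (by decide)).px
    (((id_V4 hσ).r 0x43210 [5] (by decide)).px
    (((id_V4 hσ).r 0x53210 [4] (by decide)).px
    (((id_V4 hσ).r 0x54210 [3] (by decide)).px
    (((id_V4 hσ).r 0x54301 [2] (by decide)).px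
    (((id_V4 hσ).r 0x54321 [0] (by decide)).px
    (((id_G4 hσ).r 0x543120 [] (by decide)).px
    ((id_G4 hσ).r 0x543021 [] (by decide)))))))))))))))) c_W6_p

theorem supp_XI : Supp 7 XI := supp_of_cl (by decide) (fun _ _ => rfl)

theorem id_XI (hσ : Cyc σ) : Idt σ 7 XI false := by
  refine slides (kd := false) hσ (by decide) (by decide) supp_XI 0x6543120 (by decide) c_XI_s
    (Idt.of_check (by decide) (supp_XI.der (by decide))
    (((id_I1 hσ).ch.ch.r 0x651043 [2] (by decide)).px
    (((id_I1 hσ).ch.ch.r 0x431065 [2] (by decide)).px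
    ((id_G4 hσ).r 0x654310 [2] (by decide)))) c_XI_d) (fun a h1 h2 => ?_)
    (term_of_check hσ (by decide) (by decide) supp_XI
    (((id_I1 hσ).ch.r 0x6543 [0, 1, 2] (by decide)).px
    ((id_I1 hσ).ch.r 0x4365 [0, 1, 2] (by decide))) (by decide) c_XI_t)
  interval_cases a
  · exact leg_of_check (by decide) (by decide) (by decide)
      (supp_XI.D (by decide) (by decide))
      (((id_I1 hσ).ch.r 0x6520 [1, 3, 4] (by decide)).px
      (((id_I1 hσ).ch.r 0x6521 [0, 3, 4] (by decide)).px
      (((id_I1 hσ).ch.r 0x1054 [2, 3, 6] (by decide)).px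
      (((id_I1 hσ).ch.r 0x1064 [2, 3, 5] (by decide)).px
      (((id_I2 hσ).r 0x65410 [2, 3] (by decide)).px
      (((id_I2 hσ).r 0x21065 [3, 4] (by decide)).px
      (((id_V3 hσ).r 0x6541 [0, 2, 3] (by decide)).px
      (((id_V3 hσ).ch.r 0x206541 [3] (by decide)).px
      (((id_V3 hσ).ch.r 0x106534 [2] (by decide)).px
      (((id_V4 hσ).r 0x65410 [2, 3] (by decide)).px
      (((id_V4 hσ).r 0x65421 [0, 3] (by decide)).px
      (((id_V4 hσ).r 0x65104 [2, 3] (by decide)).px
      (((id_G4 hσ).r 0x654310 [2] (by decide)).px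
      (((id_G4 hσ).r 0x654120 [3] (by decide)).px
      (((id_W6 hσ).r 0x645021 [3] (by decide)).px
      ((id_W6 hσ).r 0x210465 [3] (by decide))))))))))))))))) rfl c_XI_l3
  · exact leg_of_check (by decide) (by decide) (by decide)
      (supp_XI.D (by decide) (by decide))
      (((id_V3 hσ).r 0x3106 [2, 4, 5] (by decide)).px
      (((id_V3 hσ).ch.r 0x316520 [4] (by decide)).px
      (((id_V3 hσ).ch.r 0x306521 [4] (by decide)).px
      (((id_V3 hσ).ch.r 0x106543 [2] (by decide)).px
      (((id_V3 hσ).ch.r 0x623105 [4] (by decide)).px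
      (((id_V4 hσ).r 0x65310 [2, 4] (by decide)).px
      (((id_V4 hσ).r 0x65301 [2, 4] (by decide)).px
      (((id_V4 hσ).r 0x32106 [4, 5] (by decide)).px
      (((id_V4 hσ).r 0x53106 [2, 4] (by decide)).px
      (((id_G4 hσ).r 0x654310 [2] (by decide)).px
      (((id_G4 hσ).r 0x653120 [4] (by decide)).px
      (((id_G4 hσ).r 0x653021 [4] (by decide)).px
      (((id_G4 hσ).r 0x531062 [4] (by decide)).px
      (((id_W6 hσ).r 0x651032 [4] (by decide)).px
      (((id_W6 hσ).r 0x301652 [4] (by decide)).px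
      ((id_W6 hσ).r 0x506123 [4] (by decide))))))))))))))))) rfl c_XI_l4
  · exact leg_of_check (by decide) (by decide) (by decide)
      (supp_XI.D (by decide) (by decide))
      (((id_I1 hσ).ch.r 0x4320 [1, 5, 6] (by decide)).px
      (((id_I1 hσ).ch.r 0x4321 [0, 5, 6] (by decide)).px
      (((id_I1 hσ).ch.r 0x1063 [2, 4, 5] (by decide)).px
      (((id_I1 hσ).ch.r 0x1064 [2, 3, 5] (by decide)).px
      (((id_I2 hσ).r 0x64310 [2, 5] (by decide)).px
      (((id_I2 hσ).r 0x21043 [5, 6] (by decide)).px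
      (((id_V3 hσ).r 0x6430 [1, 2, 5] (by decide)).px
      (((id_V3 hσ).ch.r 0x216430 [5] (by decide)).px
      (((id_V3 hσ).ch.r 0x105436 [2] (by decide)).px
      (((id_V4 hσ).r 0x64310 [2, 5] (by decide)).px
      (((id_V4 hσ).r 0x64320 [1, 5] (by decide)).px
      (((id_V4 hσ).r 0x64103 [2, 5] (by decide)).px
      (((id_V4 hσ).r 0x63104 [2, 5] (by decide)).px
      (((id_G4 hσ).r 0x654310 [2] (by decide)).px
      (((id_G4 hσ).r 0x643021 [5] (by decide)).px
      (((id_W6 hσ).r 0x643120 [5] (by decide)).px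
      ((id_W6 hσ).r 0x12643 [5] (by decide)))))))))))))))))) rfl c_XI_l5
  · exact leg_of_check (by decide) (by decide) (by decide)
      (supp_XI.D (by decide) (by decide))
      (((id_I1 hσ).ch.r 0x4320 [1, 5, 6] (by decide)).px
      (((id_I1 hσ).ch.r 0x4321 [0, 5, 6] (by decide)).px
      (((id_I1 hσ).ch.r 0x1053 [2, 4, 6] (by decide)).px
      (((id_I1 hσ).ch.r 0x1054 [2, 3, 6] (by decide)).px
      (((id_I2 hσ).r 0x54310 [2, 6] (by decide)).px
      (((id_I2 hσ).r 0x21043 [5, 6] (by decide)).px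
      (((id_V3 hσ).r 0x5431 [0, 2, 6] (by decide)).px
      (((id_V3 hσ).ch.r 0x205431 [6] (by decide)).px
      (((id_V3 hσ).ch.r 0x106435 [2] (by decide)).px
      (((id_V4 hσ).r 0x54310 [2, 6] (by decide)).px
      (((id_V4 hσ).r 0x54321 [0, 6] (by decide)).px
      (((id_V4 hσ).r 0x43105 [2, 6] (by decide)).px
      (((id_G4 hσ).r 0x654310 [2] (by decide)).px
      (((id_G4 hσ).r 0x543120 [6] (by decide)).px
      (((id_W6 hσ).r 0x435021 [6] (by decide)).px
      ((id_W6 hσ).r 0x21543 [6] (by decide))))))))))))))))) rfl c_XI_l6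

theorem supp_R2 : Supp 8 R2 := supp_of_cl (by decide) (fun _ _ => rfl)

theorem id_R2 (hσ : Cyc σ) : Idt σ 8 R2 false := by
  refine slides (kd := false) hσ (by decide) (by decide) supp_R2 0x76543120 (by decide) c_R2_s
    (Idt.of_check (by decide) (supp_R2.der (by decide))
    ((id_I2 hσ).ch.r 0x1054376 [2] (by decide)) c_R2_d) (fun a h1 h2 => ?_)
    (term_of_check hσ (by decide) (by decide) supp_R2
    ((id_I2 hσ).r 0x54376 [0, 1, 2] (by decide)) (by decide) c_R2_t)
  interval_cases a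
  · exact leg_of_check (by decide) (by decide) (by decide)
      (supp_R2.D (by decide) (by decide))
      (((id_I2 hσ).ch.r 0x5421076 [3] (by decide)).px
      (((id_I2 hσ).ch.r 0x1054376 [2] (by decide)).px
      ((id_G4 hσ).r 0x541076 [2, 3] (by decide)))) rfl c_R2_l3
  · exact leg_of_check (by decide) (by decide) (by decide)
      (supp_R2.D (by decide) (by decide))
      (((id_I2 hσ).ch.r 0x5321076 [4] (by decide)).px
      (((id_I2 hσ).ch.r 0x1054376 [2] (by decide)).px
      ((id_G4 hσ).r 0x531076 [2, 4] (by decide)))) rfl c_R2_l4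
  · exact leg_of_check (by decide) (by decide) (by decide)
      (supp_R2.D (by decide) (by decide))
      (((id_I2 hσ).ch.r 0x4321076 [5] (by decide)).px
      (((id_I2 hσ).ch.r 0x1054376 [2] (by decide)).px
      ((id_G4 hσ).r 0x431076 [2, 5] (by decide)))) rfl c_R2_l5
  · exact leg_of_check (by decide) (by decide) (by decide)
      (supp_R2.D (by decide) (by decide))
      (((id_W6 hσ).r 0x543710 [2, 6] (by decide)).px
      ((id_I2 hσ).ch.r 0x1054376 [2] (by decide))) rfl c_R2_l6
  · exact leg_of_check (by decide) (by decide) (by decide)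
      (supp_R2.D (by decide) (by decide))
      (((id_W6 hσ).r 0x543610 [2, 7] (by decide)).px
      ((id_I2 hσ).ch.r 0x1054376 [2] (by decide))) rfl c_R2_l7

theorem supp_PS : Supp 8 PS := supp_of_cl (by decide) (fun _ _ => rfl)

theorem id_PS (hσ : Cyc σ) : Idt σ 8 PS false :=
  Idt.of_check (by decide) supp_PS
    (((id_R2 hσ).r 0x76543210 [] (by decide)).px
    ((id_P2 hσ).ch.r 0x76543210 [] (by decide))) c_PS_p

theorem supp_P3 : Supp 9 P3 := supp_of_cl (by decide) (fun _ _ => rfl)

theorem id_P3 (hσ : Cyc σ) : Idt σ 9 P3 true := by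
  refine slides (kd := false) hσ (by decide) (by decide) supp_P3 0x876543120 (by decide) c_P3_s
    (Idt.of_check (by decide) (supp_P3.der (by decide))
    ((id_PS hσ).r 0x10876543 [2] (by decide)) c_P3_d) (fun a h1 h2 => ?_)
    (term_of_check hσ (by decide) (by decide) supp_P3
    ((id_PS hσ).r 0x10876543 [2] (by decide)) (by decide) c_P3_t)
  interval_cases a
  · exact leg_of_check (by decide) (by decide) (by decide)
      (supp_P3.D (by decide) (by decide))
      (((id_PS hσ).r 0x54876210 [3] (by decide)).px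
      (((id_PS hσ).r 0x10876543 [2] (by decide)).px
      ((id_XI hσ).r 0x5410876 [2, 3] (by decide)))) rfl c_P3_l3
  · exact leg_of_check (by decide) (by decide) (by decide)
      (supp_P3.D (by decide) (by decide))
      (((id_PS hσ).r 0x53876210 [4] (by decide)).px
      (((id_PS hσ).r 0x10876543 [2] (by decide)).px
      ((id_XI hσ).r 0x5310876 [2, 4] (by decide)))) rfl c_P3_l4
  · exact leg_of_check (by decide) (by decide) (by decide)
      (supp_P3.D (by decide) (by decide))
      (((id_PS hσ).r 0x43876210 [5] (by decide)).px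
      (((id_PS hσ).r 0x10876543 [2] (by decide)).px
      ((id_XI hσ).r 0x4310876 [2, 5] (by decide)))) rfl c_P3_l5
  · exact leg_of_check (by decide) (by decide) (by decide)
      (supp_P3.D (by decide) (by decide))
      (((id_PS hσ).r 0x87543210 [6] (by decide)).px
      (((id_PS hσ).r 0x10876543 [2] (by decide)).px
      ((id_XI hσ).r 0x8710543 [2, 6] (by decide)))) rfl c_P3_l6
  · exact leg_of_check (by decide) (by decide) (by decide)
      (supp_P3.D (by decide) (by decide))
      (((id_PS hσ).r 0x86543210 [7] (by decide)).px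
      (((id_PS hσ).r 0x10876543 [2] (by decide)).px
      ((id_XI hσ).r 0x8610543 [2, 7] (by decide)))) rfl c_P3_l7
  · exact leg_of_check (by decide) (by decide) (by decide)
      (supp_P3.D (by decide) (by decide))
      (((id_PS hσ).r 0x76543210 [8] (by decide)).px
      (((id_PS hσ).r 0x10876543 [2] (by decide)).px
      ((id_XI hσ).r 0x7610543 [2, 8] (by decide)))) rfl c_P3_l8

end Pool.Agent.Lib.MP_061452_co.TC
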