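import Pool.Agent.Lib.MP_061452_co.TC.Ids

set_option autoImplicit false

namespace Pool.Agent.Lib.MP_061452_co.TC

def fitp (a b : ℕ) (x y z w : Bool) : Bool :=
  cond (Nat.beq (a / 3) (b / 3)) ((x || (y || (Nat.beq b a || z))) && (!x || (!y || w))) (!z)

/-- The state respects three blocks of three indices and uses some index. -/
def fit : Pr := fun u v =>
  !(u 0 0 && (u 1 1 && (u 3 3 && (u 4 4 && (u 6 6 && u 7 7))))) &&
    allBelow (fun a => allBelow (fun b => fitp a b (u a a) (u b b) (u a b) (v a b)) 9) 9

theorem c_fit : allSt 9 (fun u v => !P3 u v || fit u v) = true := by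
  decide +kernel

theorem allBelow_congr {f f' : ℕ → Bool} (k : ℕ) (h : ∀ q < k, f q = f' q) :
    allBelow f k = allBelow f' k := by
  induction k with
  | zero => rfl
  | succ k ih =>
    show (f k && allBelow f k) = (f' k && allBelow f' k)
    rw [h k (Nat.lt_succ_self k), ih (fun q hq => h q (Nat.lt_succ_of_lt hq))]

theorem supp_fit : Supp 9 fit := by
  intro u v u' v' h1 h2
  unfold fit
  rw [h1 0 (by decide) 0 (by decide), h1 1 (by decide) 1 (by decide),
    h1 3 (by decide) 3 (by decide), h1 4 (by decide) 4 (by decide),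
    h1 6 (by decide) 6 (by decide), h1 7 (by decide) 7 (by decide),
    allBelow_congr 9 (fun a ha => allBelow_congr 9 (fun b hb => by
      rw [h1 a ha a ha, h1 b hb b hb, h1 a ha b hb, h2 a ha b hb]))]

end Pool.Agent.Lib.MP_061452_co.TC
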