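import Mathlib

set_option autoImplicit false

namespace Pool.Agent.Lib.MP_061452_co.TC

/-- A binary relation between indices. -/
abbrev Orc := ℕ → ℕ → Bool
/-- A property of the pairing relation and of the equal colour relation. -/
abbrev Pr := Orc → Orc → Bool

def dg (M a : ℕ) : ℕ := Nat.mod (Nat.shiftRight M (Nat.mul 4 a)) 16
def bt (X a : ℕ) : ℕ := Nat.mod (Nat.shiftRight X a) 2
def uM (M : ℕ) : Orc := fun a b => Nat.beq (dg M a) b
def vM (M X : ℕ) : Orc := fun a b =>
  Nat.beq (dg M a) a && (Nat.beq (dg M b) b && Nat.beq (bt X a) (bt X b))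
def force (n : ℕ) (f : ℕ → Bool) : Bool := Nat.rec (f 0) (fun k _ => f (Nat.succ k)) n
def hor (B : ℕ) (d : ℕ → ℕ) (n : ℕ) : ℕ → ℕ :=
  Nat.rec (motive := fun _ => ℕ → ℕ) (fun M => M) (fun k r M => r (Nat.add (Nat.mul B M) (d k))) n
def allCol (M : ℕ) (P : ℕ → Bool) (n : ℕ) : ℕ → Bool :=
  Nat.rec (motive := fun _ => ℕ → Bool) (fun X => force X P)
    (fun k r X => r (Nat.mul 2 X) && cond (Nat.beq (dg M k) k) (r (Nat.succ (Nat.mul 2 X))) true) n
def allCol0 (M : ℕ) (P : ℕ → Bool) (n : ℕ) : Bool :=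
  Nat.rec (P 0) (fun k r => cond (Nat.beq (dg M k) k) (allCol M P k 0) r) n
def allBelow (f : ℕ → Bool) (k : ℕ) : Bool := Nat.rec true (fun q r => f q && r) k
def upd (μ : ℕ → ℕ) (k q : ℕ) : ℕ → ℕ :=
  fun y => cond (Nat.beq y k) q (cond (Nat.beq y q) k (μ y))
def allInv (P : (ℕ → ℕ) → Bool) (n : ℕ) : (ℕ → ℕ) → Bool :=
  Nat.rec (motive := fun _ => (ℕ → ℕ) → Bool) P
    (fun k r μ => r μ && cond (Nat.beq (μ k) k)
      (allBelow (fun q => cond (Nat.beq (μ q) q) (r (upd μ k q)) true) k) true) n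
/-- The property holds for all involutions of `n` indices and colourings of the fixed ones. -/
def allSt (n : ℕ) (P : Pr) : Bool :=
  allInv (fun μ => force (hor 16 μ n 0)
    (fun M => allCol0 M (fun X => P (uM M) (vM M X)) n)) n (fun y => y)

theorem force_eq (n : ℕ) (f : ℕ → Bool) : force n f = f n := by cases n <;> rfl

theorem beq_dec (a b : ℕ) : Nat.beq a b = decide (a = b) := by
  by_cases h : a = b
  · rw [decide_eq_true h, h, Nat.beq_refl]
  · rw [decide_eq_false h]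
    exact Bool.eq_false_iff.2 (fun k => h (Nat.eq_of_beq_eq_true k))

theorem hor_succ (B : ℕ) (d : ℕ → ℕ) (k M : ℕ) :
    hor B d (k + 1) M = hor B d k (B * M + d k) := rfl

theorem hor_spec (s : ℕ) (d : ℕ → ℕ) (k : ℕ) (hd : ∀ a < k, d a < 2 ^ s) (M : ℕ) :
    hor (2 ^ s) d k M >>> (s * k) = M ∧
      ∀ a < k, (hor (2 ^ s) d k M >>> (s * a)) % 2 ^ s = d a := by
  induction k generalizing M with
  | zero => exact ⟨rfl, fun a ha => absurd ha (Nat.not_lt_zero a)⟩
  | succ k ih =>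
    obtain ⟨h1, h2⟩ := ih (fun a ha => hd a (Nat.lt_succ_of_lt ha)) (2 ^ s * M + d k)
    have hk := hd k (Nat.lt_succ_self k)
    rw [hor_succ]
    refine ⟨?_, fun a ha => ?_⟩
    · rw [Nat.mul_succ, Nat.shiftRight_add, h1, Nat.shiftRight_eq_div_pow,
        Nat.mul_add_div (Nat.two_pow_pos s), Nat.div_eq_of_lt hk, Nat.add_zero]
    · rcases Nat.lt_succ_iff_lt_or_eq.1 ha with h | h
      · exact h2 a h
      · rw [h, h1, Nat.mul_add_mod, Nat.mod_eq_of_lt hk]

theorem dg_hor (μ : ℕ → ℕ) (n : ℕ) (h : ∀ a < n, μ a < 16) (a : ℕ) (ha : a < n) :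
    dg (hor 16 μ n 0) a = μ a := (hor_spec 4 μ n h 0).2 a ha

theorem bt_hor (d : ℕ → ℕ) (n : ℕ) (h : ∀ a < n, d a < 2) (a : ℕ) (ha : a < n) :
    bt (hor 2 d n 0) a = d a := by
  have := (hor_spec 1 d n h 0).2 a ha
  rwa [Nat.one_mul] at this

/-- The bits of a colouring. -/
def bits (M : ℕ) (x : ℕ → Bool) (a : ℕ) : ℕ := if dg M a = a ∧ x a = true then 1 else 0

theorem allCol_spec {M : ℕ} {P : ℕ → Bool} (x : ℕ → Bool) (k X : ℕ)
    (h : allCol M P k X = true) : P (hor 2 (bits M x) k X) = true := by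
  induction k generalizing X with
  | zero => exact (force_eq X P).symm.trans h
  | succ k ih =>
    have h' : (allCol M P k (2 * X) &&
      cond (Nat.beq (dg M k) k) (allCol M P k (2 * X + 1)) true) = true := h
    rw [Bool.and_eq_true] at h'
    rw [hor_succ]
    unfold bits
    split_ifs with e
    · refine ih _ ?_
      have := h'.2
      rwa [e.1, Nat.beq_refl] at this
    · exact ih _ h'.1

theorem allCol0_spec {M : ℕ} {P : ℕ → Bool} (x : ℕ → Bool) (k : ℕ)
    (h : allCol0 M P k = true) : ∃ t, P (hor 2 (bits M (fun a => xor (x a) t)) k 0) = true := by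
  induction k with
  | zero => exact ⟨true, h⟩
  | succ k ih =>
    have h' : cond (Nat.beq (dg M k) k) (allCol M P k 0) (allCol0 M P k) = true := h
    by_cases e : dg M k = k
    · rw [e, Nat.beq_refl] at h'
      refine ⟨x k, ?_⟩
      rw [hor_succ, show bits M (fun a => xor (x a) (x k)) k = 0 by simp [bits]]
      exact allCol_spec _ k 0 h'
    · rw [beq_dec, decide_eq_false e] at h'
      obtain ⟨t, ht⟩ := ih h'
      refine ⟨t, ?_⟩
      rw [hor_succ, show bits M (fun a => xor (x a) t) k = 0 by simp [bits, e]]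
      exact ht

theorem allBelow_spec {f : ℕ → Bool} (k : ℕ) (h : allBelow f k = true) (q : ℕ) (hq : q < k) :
    f q = true := by
  induction k with
  | zero => exact absurd hq (Nat.not_lt_zero q)
  | succ k ih =>
    have h' : (f k && allBelow f k) = true := h
    rw [Bool.and_eq_true] at h'
    rcases Nat.lt_succ_iff_lt_or_eq.1 hq with e | e
    · exact ih h'.2 e
    · rw [e]; exact h'.1

theorem allInv_spec {P : (ℕ → ℕ) → Bool} {n : ℕ} {ν : ℕ → ℕ}
    (hν : ∀ a < n, ν a < n ∧ ν (ν a) = a) (k : ℕ) (hk : k ≤ n) (μ : ℕ → ℕ)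
    (hμ : ∀ a < n, μ a = if k ≤ a ∨ k ≤ ν a then ν a else a) (h : allInv P k μ = true) :
    ∃ μ', P μ' = true ∧ ∀ a < n, μ' a = ν a := by
  induction k generalizing μ with
  | zero => exact ⟨μ, h, fun a ha => by rw [hμ a ha, if_pos (Or.inl (Nat.zero_le a))]⟩
  | succ k ih =>
    have h' : (allInv P k μ && cond (Nat.beq (μ k) k)
      (allBelow (fun q => cond (Nat.beq (μ q) q) (allInv P k (upd μ k q)) true) k) true) = true := h
    rw [Bool.and_eq_true] at h'
    have kn : k < n := hk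
    have inj : ∀ a < n, ν a = k → a = ν k := fun a ha e => by rw [← e, (hν a ha).2]
    by_cases e : ν k < k
    · have m1 : μ k = k := by rw [hμ k kn, if_neg (by omega)]
      have m2 : μ (ν k) = ν k := by
        rw [hμ _ (hν k kn).1, (hν k kn).2, if_neg (by omega)]
      have h2 := h'.2
      rw [m1, Nat.beq_refl] at h2
      have h3 := allBelow_spec k h2 _ e
      rw [m2, Nat.beq_refl] at h3
      refine ih kn.le _ (fun a ha => ?_) h3
      unfold upd
      rw [beq_dec, beq_dec]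
      by_cases e1 : a = k
      · simp [e1]
      by_cases e2 : a = ν k
      · simp [e2, (hν k kn).2, e.ne]
      have e3 : ν a ≠ k := fun j => e2 (inj a ha j)
      rw [decide_eq_false e1, decide_eq_false e2, cond_false, cond_false, hμ a ha]
      exact if_congr (by omega) rfl rfl
    · refine ih kn.le _ (fun a ha => ?_) h'.1
      rw [hμ a ha]
      by_cases e1 : a = k
      · rw [e1, if_pos (Or.inl le_rfl)]
        split_ifs with j
        · rfl
        · omega
      by_cases e3 : ν a = k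
      · have := inj a ha e3
        rw [if_pos (by omega), if_pos (by omega)]
      exact if_congr (by omega) rfl rfl

theorem allSt_spec {n : ℕ} (hn : n ≤ 16) {P : Pr} (h : allSt n P = true) (ν : ℕ → ℕ)
    (hν : ∀ a < n, ν a < n ∧ ν (ν a) = a) (x : ℕ → Bool) :
    ∃ u v, P u v = true ∧ (∀ a < n, ∀ b, u a b = decide (ν a = b)) ∧
      ∀ a < n, ∀ b < n, v a b = decide (ν a = a ∧ ν b = b ∧ x a = x b) := by
  obtain ⟨μ, h1, h2⟩ := allInv_spec hν n le_rfl (fun y => y) (fun a ha => by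
    have := (hν a ha).1
    rw [if_neg (by omega)]) h
  rw [force_eq] at h1
  obtain ⟨t, ht⟩ := allCol0_spec x n h1
  have hd : ∀ a < n, dg (hor 16 μ n 0) a = ν a := fun a ha => by
    rw [dg_hor μ n (fun b hb => by have := (hν b hb).1; rw [h2 b hb]; omega) a ha, h2 a ha]
  refine ⟨_, _, ht, fun a ha b => ?_, fun a ha b hb => ?_⟩
  · rw [uM, hd a ha, beq_dec]
  · have hb' : ∀ a < n, bits (hor 16 μ n 0) (fun a => xor (x a) t) a < 2 := fun a _ => by
      unfold bits; split_ifs <;> omega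
    rw [vM, bt_hor _ n hb' a ha, bt_hor _ n hb' b hb, beq_dec, beq_dec, beq_dec]
    unfold bits
    rw [hd a ha, hd b hb]
    beta_reduce
    by_cases e1 : ν a = a <;> by_cases e2 : ν b = b <;> cases x a <;> cases x b <;> cases t <;>
      simp [e1, e2]

/-- The property looks only at indices below `n`. -/
def Supp (n : ℕ) (F : Pr) : Prop :=
  ∀ u v u' v' : Orc, (∀ a < n, ∀ b < n, u a b = u' a b) → (∀ a < n, ∀ b < n, v a b = v' a b) →
    F u v = F u' v'

def cl (n a : ℕ) : ℕ := cond (Nat.blt a n) a 0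

theorem cl_lt {n : ℕ} (hn : 0 < n) (a : ℕ) : cl n a < n := by
  unfold cl
  cases h : Nat.blt a n
  · exact hn
  · exact Nat.blt_eq.mp h

theorem supp_of_cl {n : ℕ} (hn : 0 < n) {F : Pr}
    (h : ∀ u v : Orc, F u v = F (fun a b => u (cl n a) (cl n b)) (fun a b => v (cl n a) (cl n b))) :
    Supp n F := by
  intro u v u' v' h1 h2
  rw [h u v, h u' v']
  congr 1 <;> funext a b
  exacts [h1 _ (cl_lt hn a) _ (cl_lt hn b), h2 _ (cl_lt hn a) _ (cl_lt hn b)]

/-- Relabelling by the digits of `L`, the indices in `rest` being unused. -/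
def rel (L : ℕ) (rest : List ℕ) (F : Pr) : Pr := fun u v =>
  rest.all (fun a => u a a) && F (fun a b => u (dg L a) (dg L b)) (fun a b => v (dg L a) (dg L b))
/-- Adding a chord between the indices `m` and `m + 1`. -/
def ch (m m' : ℕ) (F : Pr) : Pr := fun u v => (u m m' || v m m') && F u v
def fl (b : ℕ) (u v : Orc) : Orc := fun x y =>
  cond (xor (Nat.beq x b) (Nat.beq y b)) (u x x && (u y y && !v x y)) (v x y)
def umg (a b l : ℕ) (u : Orc) : Orc := fun x y =>
  cond (Nat.beq x a) (u l y) (cond (Nat.beq x b) (Nat.beq y l) (cond (Nat.beq x l) (Nat.beq y b)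
    (cond (u l x) (Nat.beq y a) (u x y))))
def vmg (a b : ℕ) (v : Orc) : Orc := fun x y =>
  !Nat.beq x a && (!Nat.beq x b && (!Nat.beq y a && (!Nat.beq y b && v x y)))
def der (b : ℕ) (F : Pr) : Pr := fun u v => u b b && xor (F u v) (F u (fl b u v))
def T3 (a l : ℕ) (F : Pr) : Pr := fun u v => !u l l && F (umg a 2 l u) (vmg a 2 v)
def D (a : ℕ) (F : Pr) : Pr := fun u v =>
  cond (u a a) (cond (u 2 2) (xor (T3 a 0 F u v) (T3 a 1 F u v)) (der a F u v)) (der 2 F u v)
def px (F G : Pr) : Pr := fun u v => xor (F u v) (G u v)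
def okP (F : Pr) : Pr := fun u v => !F u v
def okA (a b : ℕ) (F : Pr) : Pr := fun u v => (u a a && (u b b && !v a b)) || !F u v
def okT (F : Pr) : Pr := fun u v => u 0 1 || (u 1 2 || ((u 0 2 && u 1 1) ||
  ((u 0 0 && (u 1 1 && !v 0 1)) || ((u 1 1 && (u 2 2 && !v 1 2)) || !F u v))))
def okS (L : ℕ) (F : Pr) : Pr := fun u v =>
  cond (F u v) (rel L [] F u v && (u 2 2 || (u 2 0 || u 2 1))) (!rel L [] F u v)
def uT (a b : ℕ) : Orc := fun x y =>
  Nat.beq (cond (Nat.beq x a) b (cond (Nat.beq x b) a x)) y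
def vT (a b m : ℕ) : Orc := fun x y =>
  !Nat.beq x a && (!Nat.beq x b && (!Nat.beq y a && (!Nat.beq y b &&
    !xor (Nat.beq x m) (Nat.beq y m))))
def tau (F : Pr) : Bool :=
  xor (F (uT 0 1) (vT 0 1 0)) (xor (F (uT 1 2) (vT 1 2 1)) (F (uT 0 2) (vT 0 2 1)))
/-- The digits of `L` and the list `rest` enumerate the indices below `n`. -/
def okrel (m n L : ℕ) (rest : List ℕ) : Prop :=
  L < 16 ^ m ∧ 0 < n ∧ (∀ a < m, dg L a < n ∧ ∀ b < m, dg L a = dg L b → a = b) ∧
    (∀ r ∈ rest, r < n ∧ ∀ a < m, dg L a ≠ r) ∧ ∀ b < n, b ∈ rest ∨ ∃ a < m, dg L a = b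

instance (m n L : ℕ) (rest : List ℕ) : Decidable (okrel m n L rest) := by
  unfold okrel; infer_instance

theorem okrel.lt {m n L : ℕ} {rest : List ℕ} (h : okrel m n L rest) (a : ℕ) : dg L a < n := by
  by_cases ha : a < m
  · exact (h.2.2.1 a ha).1
  · have : L >>> (4 * a) = 0 := by
      rw [Nat.shiftRight_eq_div_pow, Nat.pow_mul]
      exact Nat.div_eq_of_lt (h.1.trans_le (Nat.pow_le_pow_right (by norm_num) (not_lt.1 ha)))
    have e : dg L a = 0 := by
      show (L >>> (4 * a)) % 16 = 0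
      rw [this]
    rw [e]; exact h.2.1

theorem Supp.rel {m n L : ℕ} {rest : List ℕ} (h : okrel m n L rest) (F : Pr) :
    Supp n (rel L rest F) := by
  intro u v u' v' h1 h2
  unfold TC.rel
  congr 1
  · rw [Bool.eq_iff_iff, List.all_eq_true, List.all_eq_true]
    exact forall₂_congr (fun r hr => by rw [h1 r (h.2.2.2.1 r hr).1 r (h.2.2.2.1 r hr).1])
  · congr 1 <;> funext a b
    exacts [h1 _ (h.lt a) _ (h.lt b), h2 _ (h.lt a) _ (h.lt b)]

theorem Supp.px {n : ℕ} {F G : Pr} (hF : Supp n F) (hG : Supp n G) : Supp n (px F G) := by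
  intro u v u' v' h1 h2
  unfold TC.px
  rw [hF u v u' v' h1 h2, hG u v u' v' h1 h2]

theorem Supp.der {n : ℕ} {F : Pr} (hF : Supp n F) {b : ℕ} (hb : b < n) : Supp n (der b F) := by
  intro u v u' v' h1 h2
  unfold TC.der
  rw [hF u v u' v' h1 h2, h1 b hb b hb, hF u (fl b u v) u' (fl b u' v') h1]
  intro x hx y hy
  unfold fl
  rw [h1 x hx x hx, h1 y hy y hy, h2 x hx y hy]

theorem Supp.T3 {n : ℕ} {F : Pr} (hF : Supp n F) (a : ℕ) {l : ℕ} (hl : l < n) :
    Supp n (T3 a l F) := by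
  intro u v u' v' h1 h2
  unfold TC.T3
  rw [h1 l hl l hl, hF (umg a 2 l u) (vmg a 2 v) (umg a 2 l u') (vmg a 2 v')]
  · intro x hx y hy
    unfold umg
    rw [h1 l hl y hy, h1 l hl x hx, h1 x hx y hy]
  · intro x hx y hy
    unfold vmg
    rw [h2 x hx y hy]

theorem Supp.D {n : ℕ} {F : Pr} (hF : Supp n F) (h3 : 3 ≤ n) {a : ℕ} (ha : a < n) :
    Supp n (D a F) := by
  intro u v u' v' h1 h2
  unfold TC.D
  rw [h1 a ha a ha, h1 2 h3 2 h3, hF.T3 a (show 0 < n by omega) u v u' v' h1 h2,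
    hF.T3 a (show 1 < n by omega) u v u' v' h1 h2, hF.der ha u v u' v' h1 h2,
    hF.der (show 2 < n from h3) u v u' v' h1 h2]

end Pool.Agent.Lib.MP_061452_co.TC
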