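import Pool.Agent.Lib.MP_061452_co.TC.Two
import Pool.Agent.Lib.MP_061452_co.TC.Loc

set_option autoImplicit false

namespace Pool.Agent.Lib.MP_061452_co.TC

open Function

variable {α : Type} [DecidableEq α]

/-- Chords and `n` different marked points on no chord. -/
def St (n : ℕ) (π : α → α) (e : ℕ → α) : Prop :=
  Involutive π ∧ (∀ a < n, ∀ b < n, e a = e b → a = b) ∧ ∀ a < n, π (e a) = e a

/-- The marked points. -/
def Sp (n : ℕ) (e : ℕ → α) (p : α) : Prop := ∃ a < n, e a = p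

def uo (e : ℕ → α) (ρ : α → α) : Orc := fun a b => decide (ρ (e a) = e b)

def vo (e : ℕ → α) (c : α → Bool) (ρ : α → α) : Orc := fun a b =>
  decide (ρ (e a) = e a ∧ ρ (e b) = e b ∧ c (e a) = c (e b))

def Om (n : ℕ) (π : α → α) (e : ℕ → α) (F : Pr) (c : α → Bool) (ρ : α → α) : Prop :=
  Base π (Sp n e) c ρ ∧ F (uo e ρ) (vo e c ρ) = true

/-- The parity of the number of valid states whose trace on the marked points satisfies `F`. -/
noncomputable def N [Fintype α] (σ : Equiv.Perm α) (g : α) (n : ℕ) (π : α → α) (e : ℕ → α)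
    (F : Pr) : ZMod 2 := Tot σ g (fun c ρ => ind (Om n π e F c ρ))

/-- The parity does not depend on the chords or on the positions of the marked points. -/
def Idt [Fintype α] (σ : Equiv.Perm α) (n : ℕ) (F : Pr) (k : Bool) : Prop :=
  ∀ g π e, St n π e → N σ g n π e F = ind (k = true)

def Good [Fintype α] (σ : Equiv.Perm α) (n : ℕ) (F : Pr) (k : Bool) : Prop :=
  Idt σ n F k ∧ Supp n F

variable {σ : Equiv.Perm α} {g : α} {n m : ℕ} {π : α → α} {e : ℕ → α} {F G : Pr}
  {c c' : α → Bool} {ρ : α → α} {k k' : Bool}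

theorem vo_loc (hc : ∀ p, ρ p = p → c p = c' p) : vo e c ρ = vo e c' ρ := by
  funext a b
  exact decide_eq_decide.2 (and_congr_right fun h1 => and_congr_right fun h2 => by
    rw [hc _ h1, hc _ h2])

theorem Om_loc : Loc (Om n π e F) := fun _ _ _ hc k => ⟨k.1.loc hc, vo_loc hc ▸ k.2⟩

theorem Om_neg (c : α → Bool) (ρ : α → α) : Om n π e F (neg c) ρ ↔ Om n π e F c ρ := by
  have e1 : vo e (neg c) ρ = vo e c ρ := by
    funext a b; simp [vo, neg]
  unfold Om Base
  rw [e1]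
  simp [neg]

theorem N_base [Fintype α] (g g' : α) : N σ g n π e F = N σ g' n π e F :=
  Tot_base g g' (fun c ρ => ind_congr (Om_neg c ρ))

theorem ind_xor (B : Prop) (a b : Bool) :
    ind (B ∧ xor a b = true) = ind (B ∧ a = true) + ind (B ∧ b = true) := by
  by_cases h : B <;> cases a <;> cases b <;> simp [ind, h]
  decide

theorem ind_xor' (a b : Bool) : ind (xor a b = true) = ind (a = true) + ind (b = true) := by
  cases a <;> cases b <;> simp [ind]
  decide

theorem N_px [Fintype α] : N σ g n π e (px F G) = N σ g n π e F + N σ g n π e G := by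
  unfold N
  rw [← Tot_add]
  exact Tot_congr (fun c ρ _ => ind_xor _ _ _)

theorem Good.px [Fintype α] (h : Good σ n F k) (h' : Good σ n G k') :
    Good σ n (px F G) (xor k k') :=
  ⟨fun g π e hs => by rw [N_px, h.1 g π e hs, h'.1 g π e hs, ind_xor'], h.2.px h'.2⟩

omit [DecidableEq α] in
theorem closure (hs : St n π e) (hρ : Involutive ρ) (hb : Base π (Sp n e) c ρ) {a : ℕ}
    (ha : a < n) : Sp n e (ρ (e a)) := by
  by_contra h
  by_cases k : π (ρ (e a)) = ρ (e a)
  · have := hb.2 _ k h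
    rw [hρ] at this
    exact h ⟨a, ha, this⟩
  · rcases hb.1 _ k with j | ⟨j, _⟩
    · rw [hρ] at j
      apply k
      rw [← j, ← hs.1 (ρ (e a)), ← j, hs.2.2 a ha]
    · rw [hρ] at j
      exact h ⟨a, ha, j⟩

theorem of_all (hn : n ≤ 16) (hs : St n π e) (hρ : Involutive ρ) (hb : Base π (Sp n e) c ρ)
    {P : Pr} (hP : Supp n P) (h : allSt n P = true) : P (uo e ρ) (vo e c ρ) = true := by
  have h1 : ∀ a, ∃ b, a < n → b < n ∧ e b = ρ (e a) := fun a => by
    by_cases ha : a < n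
    · obtain ⟨b, hb⟩ := closure hs hρ hb ha; exact ⟨b, fun _ => hb⟩
    · exact ⟨0, fun k => absurd k ha⟩
  choose ν hν using h1
  have h2 : ∀ a < n, ∀ b < n, ν a = b ↔ ρ (e a) = e b := fun a ha b hb =>
    ⟨fun k => by rw [← k, (hν a ha).2], fun k => hs.2.1 _ (hν a ha).1 _ hb ((hν a ha).2.trans k)⟩
  obtain ⟨u, v, k0, k1, k2⟩ := allSt_spec hn h ν (fun a ha => ⟨(hν a ha).1,
    (h2 _ (hν a ha).1 a ha).2 (by rw [(hν a ha).2, hρ])⟩) (fun a => c (e a))
  rw [← k0]
  refine hP _ _ _ _ (fun a ha b hb => ?_) (fun a ha b hb => ?_)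
  · rw [k1 a ha b]; exact decide_eq_decide.2 (h2 a ha b hb).symm
  · rw [k2 a ha b hb]; exact decide_eq_decide.2 (by rw [h2 a ha a ha, h2 b hb b hb])

theorem N_zero [Fintype α] (h : ∀ c ρ, Valid σ g c ρ → ¬ Om n π e F c ρ) : N σ g n π e F = 0 :=
  (Tot_congr (fun c ρ hv => ind_neg (h c ρ hv))).trans Tot_zero

theorem Idt.of_check [Fintype α] (hn : n ≤ 16) (hF : Supp n F) (hG : Good σ n G k)
    (h : allSt n (okP (px F G)) = true) : Idt σ n F k := by
  intro g π e hs
  have z : N σ g n π e (px F G) = 0 := N_zero (fun c ρ hv k => by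
    have := of_all hn hs hv.1.1 k.1 (P := okP (px F G))
      (fun u v u' v' h1 h2 => congrArg not (hF.px hG.2 u v u' v' h1 h2)) h
    rw [okP, k.2] at this
    exact absurd this (by decide))
  rw [N_px, hG.1 g π e hs] at z
  linear_combination z - zmod2_add_self (ind (k = true))

omit [DecidableEq α] in
theorem St.rel {L : ℕ} {rest : List ℕ} (ok : okrel m n L rest) (hs : St n π e) :
    St m π (fun a => e (dg L a)) :=
  ⟨hs.1, fun a ha b hb k => (ok.2.2.1 a ha).2 b hb (hs.2.1 _ (ok.lt a) _ (ok.lt b) k),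
    fun a _ => hs.2.2 _ (ok.lt a)⟩

theorem Om_rel {L : ℕ} {rest : List ℕ} (ok : okrel m n L rest) (hs : St n π e) :
    Om n π e (rel L rest F) c ρ ↔ Om m π (fun a => e (dg L a)) F c ρ := by
  unfold Om rel
  rw [Bool.and_eq_true, List.all_eq_true, ← and_assoc]
  refine and_congr ⟨fun h => h.1.mono ?_, fun h => ⟨h.mono ?_, fun r hr => ?_⟩⟩ Iff.rfl
  · rintro _ _ ⟨a, ha, rfl⟩ hn
    rcases ok.2.2.2.2 a ha with j | ⟨b, hb, j⟩
    · exact of_decide_eq_true (h.2 a j)
    · exact absurd ⟨b, hb, congrArg e j⟩ hn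
  · rintro _ _ ⟨a, _, rfl⟩ hn
    exact absurd ⟨_, ok.lt a, rfl⟩ hn
  · obtain ⟨h1, h2⟩ := ok.2.2.2.1 r hr
    refine decide_eq_true (h.2 _ (hs.2.2 r h1) ?_)
    rintro ⟨a, ha, j⟩
    exact h2 a ha (hs.2.1 _ (ok.lt a) _ h1 j)

theorem Idt.r [Fintype α] (h : Idt σ m F k) (L : ℕ) (rest : List ℕ)
    (ok : okrel m n L rest) : Good σ n (rel L rest F) k :=
  ⟨fun g π _ hs => (Tot_congr (fun _ _ _ => ind_congr (Om_rel ok hs))).trans
    (h g π _ (hs.rel ok)), Supp.rel ok F⟩

theorem Idt.ch [Fintype α] (h : Idt σ m F k) : Idt σ (m + 2) (ch m (m + 1) F) k := by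
  intro g π e hs
  have m1 : m < m + 2 := by omega
  have m2 : m + 1 < m + 2 := by omega
  have ne : e m ≠ e (m + 1) := fun j => by have := hs.2.1 _ m1 _ m2 j; omega
  have f1 := hs.2.2 _ m1
  have f2 := hs.2.2 _ m2
  let π' : α → α := fun p => if p = e m then e (m + 1) else if p = e (m + 1) then e m else π p
  have p1 : π' (e m) = e (m + 1) := if_pos rfl
  have p2 : π' (e (m + 1)) = e m := by simp [π', ne.symm]
  have p3 : ∀ p, p ≠ e m → p ≠ e (m + 1) → π' p = π p := fun p h1 h2 => by simp [π', h1, h2]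
  have n1 : ∀ p, π p ≠ p → p ≠ e m ∧ p ≠ e (m + 1) ∧ π p ≠ e m ∧ π p ≠ e (m + 1) := fun p hp =>
    ⟨(chord_ne hs.1 hp f1).1, (chord_ne hs.1 hp f2).1, (chord_ne hs.1 hp f1).2,
      (chord_ne hs.1 hp f2).2⟩
  have n2 : ∀ a < m, e a ≠ e m ∧ e a ≠ e (m + 1) := fun a ha =>
    ⟨fun j => by have := hs.2.1 _ (by omega) _ m1 j; omega,
      fun j => by have := hs.2.1 _ (by omega) _ m2 j; omega⟩
  have hs' : St m π' e := by
    refine ⟨fun p => ?_, fun a ha b hb => hs.2.1 a (by omega) b (by omega), fun a ha => ?_⟩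
    · by_cases e1 : p = e m
      · rw [e1, p1, p2]
      by_cases e2 : p = e (m + 1)
      · rw [e2, p2, p1]
      rw [p3 p e1 e2]
      by_cases e3 : π p = p
      · rw [e3, p3 p e1 e2, e3]
      · rw [p3 _ (n1 p e3).2.2.1 (n1 p e3).2.2.2, hs.1]
    · rw [p3 _ (n2 a ha).1 (n2 a ha).2, hs.2.2 a (by omega)]
  rw [← h g π' e hs']
  refine Tot_congr (fun c ρ hv => ind_congr ?_)
  unfold Om TC.ch
  rw [Bool.and_eq_true, Bool.or_eq_true, ← and_assoc]
  refine and_congr ?_ Iff.rfl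
  unfold uo vo
  rw [decide_eq_true_iff, decide_eq_true_iff]
  constructor
  · rintro ⟨h1, h2⟩
    refine ⟨fun p hp => ?_, fun p hp hx => ?_⟩
    · by_cases e1 : p = e m
      · rw [e1, p1]; exact h2
      by_cases e2 : p = e (m + 1)
      · rw [e2, p2]
        exact h2.imp (fun j => by rw [← j, hv.1.1]) (fun j => ⟨j.2.1, j.1, j.2.2.symm⟩)
      rw [p3 p e1 e2] at hp ⊢
      exact h1.1 p hp
    · have e1 : p ≠ e m := fun j => ne (by rw [j, p1] at hp; exact hp.symm)
      have e2 : p ≠ e (m + 1) := fun j => ne (by rw [j, p2] at hp; exact hp)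
      rw [p3 p e1 e2] at hp
      refine h1.2 p hp ?_
      rintro ⟨a, ha, rfl⟩
      by_cases j : a < m
      · exact hx ⟨a, j, rfl⟩
      · rcases (by omega : a = m ∨ a = m + 1) with j | j
        exacts [e1 (by rw [j]), e2 (by rw [j])]
  · intro h1
    refine ⟨⟨fun p hp => ?_, fun p hp hx => ?_⟩, ?_⟩
    · have := h1.1 p (by rw [p3 p (n1 p hp).1 (n1 p hp).2.1]; exact hp)
      rwa [p3 p (n1 p hp).1 (n1 p hp).2.1] at this
    · refine h1.2 p ?_ (fun ⟨a, ha, j⟩ => hx ⟨a, by omega, j⟩)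
      rw [p3 p (fun j => hx ⟨_, m1, j.symm⟩) (fun j => hx ⟨_, m2, j.symm⟩), hp]
    · have := h1.1 (e m) (by rw [p1]; exact ne.symm)
      rwa [p1] at this

theorem idt_pair [Fintype α] (hσ : Cyc σ) : Idt σ 2 (fun u _ => u 0 1) true := by
  intro g π e hs
  obtain ⟨r, hr⟩ := hσ (e 0)
  have ne : e 1 ≠ e 0 := fun j => by have := hs.2.1 _ (by decide) _ (by decide) j; omega
  rw [N_base g (e 0), ind_pos rfl, ← count_F hr π (e 1) ∅
    ⟨⟨hs.1, hs.2.2 0 (by decide), by simp, by simp⟩, hs.2.2 1 (by decide), ne, by simp⟩]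
  have hX : Sp 2 e = fun p => p = e 0 ∨ p = e 1 := by
    funext p
    refine propext ⟨?_, fun j => j.elim (fun j => ⟨0, by decide, j.symm⟩)
      (fun j => ⟨1, by decide, j.symm⟩)⟩
    rintro ⟨a, ha, rfl⟩
    rcases (by omega : a = 0 ∨ a = 1) with j | j <;> simp [j]
  refine Tot_congr (fun c ρ _ => ind_congr ?_)
  unfold Om Fp uo
  rw [hX]
  simp [and_comm]

theorem adj (hv : Valid σ g c ρ) {a b : ℕ} (hab : e b = σ (e a)) :
    (uo e ρ a a && (uo e ρ b b && !vo e c ρ a b)) = false := by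
  unfold uo vo
  by_cases h1 : ρ (e a) = e a <;> by_cases h2 : ρ (e b) = e b <;> simp [h1, h2]
  have := (hv.1.2.1 _).1 h2
  rwa [hab, Equiv.symm_apply_apply, ← hab] at this

theorem leg_of_check [Fintype α] (hn : n ≤ 16) {a b : ℕ} (ha : a < n) (hb : b < n)
    (hF : Supp n F) (hG : Good σ n G k) (hk : k = false)
    (h : allSt n (okA a b (px F G)) = true) (g : α) (π : α → α) (e : ℕ → α) (hs : St n π e)
    (hab : e b = σ (e a)) : N σ g n π e F = 0 := by
  have z : N σ g n π e (px F G) = 0 := N_zero (fun c ρ hv k => by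
    have := of_all hn hs hv.1.1 k.1 (P := okA a b (px F G)) (fun u v u' v' h1 h2 => by
      unfold okA
      rw [hF.px hG.2 u v u' v' h1 h2, h1 a ha a ha, h1 b hb b hb, h2 a ha b hb]) h
    rw [okA, k.2, adj hv hab] at this
    exact absurd this (by decide))
  rw [N_px, hG.1 g π e hs, hk, ind_neg (by decide), add_zero] at z
  exact z

theorem Om_term (hs : St n π e) (hF : Supp n F) {a b : ℕ} (ha : a < n) (hb : b < n) (hm : m < n)
    (hab : a ≠ b) :
    Om n π e F (fun p => decide (p ≠ e m)) (Equiv.swap (e a) (e b)) ↔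
      F (uT a b) (vT a b m) = true := by
  have inj : ∀ x < n, ∀ y < n, e x = e y ↔ x = y := fun x hx y hy =>
    ⟨hs.2.1 x hx y hy, congrArg e⟩
  have hB : Base π (Sp n e) (fun p => decide (p ≠ e m)) (Equiv.swap (e a) (e b)) := by
    refine ⟨fun p hp => Or.inr ?_, fun p _ hx => Equiv.swap_apply_of_ne_of_ne
      (fun j => hx ⟨a, ha, j.symm⟩) (fun j => hx ⟨b, hb, j.symm⟩)⟩
    have a1 := chord_ne hs.1 hp (hs.2.2 a ha)
    have a2 := chord_ne hs.1 hp (hs.2.2 b hb)
    have a3 := chord_ne hs.1 hp (hs.2.2 m hm)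
    exact ⟨Equiv.swap_apply_of_ne_of_ne a1.1 a2.1, Equiv.swap_apply_of_ne_of_ne a1.2 a2.2,
      by simp [a3.1, a3.2]⟩
  have sw : ∀ x < n, Equiv.swap (e a) (e b) (e x) = e (if x = a then b else if x = b then a else x) := by
    intro x hx
    split_ifs with h1 h2
    · rw [h1, Equiv.swap_apply_left]
    · rw [h2, Equiv.swap_apply_right]
    · exact Equiv.swap_apply_of_ne_of_ne (mt (inj x hx a ha).1 h1) (mt (inj x hx b hb).1 h2)
  have lt : ∀ x < n, (if x = a then b else if x = b then a else x) < n := fun x hx => by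
    split_ifs <;> assumption
  have fx : ∀ x, (if x = a then b else if x = b then a else x) = x ↔ x ≠ a ∧ x ≠ b := fun x => by
    split_ifs <;> omega
  unfold Om
  rw [and_iff_right hB, hF _ _ (uT a b) (vT a b m)]
  · intro x hx y hy
    unfold uo uT
    rw [sw x hx]
    simp only [inj _ (lt x hx) y hy, beq_dec, Bool.cond_decide]
  · intro x hx y hy
    unfold vo vT
    rw [sw x hx, sw y hy]
    simp only [inj _ (lt x hx) x hx, inj _ (lt y hy) y hy, fx, beq_dec, ne_eq, inj x hx m hm,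
      inj y hy m hm]
    by_cases h1 : x = a <;> by_cases h2 : x = b <;> by_cases h3 : y = a <;> by_cases h4 : y = b <;>
      by_cases h5 : x = m <;> by_cases h6 : y = m <;> simp [h1, h2, h3, h4] <;> simp [h5, h6]

theorem term_of_check [Fintype α] (hσ : Cyc σ) (hn : n ≤ 16) (h3 : 3 ≤ n) (hF : Supp n F)
    (hG : Good σ n G k') (hk : xor (tau (px F G)) k' = k) (h : allSt n (okT (px F G)) = true)
    (g : α) (π : α → α) (e : ℕ → α) (hs : St n π e) (h01 : e 1 = σ (e 0)) (h12 : e 2 = σ (e 1)) :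
    N σ g n π e F = ind (k = true) := by
  have l0 : 0 < n := by omega
  have l1 : 1 < n := by omega
  have l2 : 2 < n := h3
  have n10 : e 1 ≠ e 0 := fun j => by have := hs.2.1 _ l1 _ l0 j; omega
  have n21 : e 2 ≠ e 1 := fun j => by have := hs.2.1 _ l2 _ l1 j; omega
  have n20 : e 2 ≠ e 0 := fun j => by have := hs.2.1 _ l2 _ l0 j; omega
  have sH := hF.px hG.2
  generalize hH : px F G = H at sH hk h
  obtain ⟨r0, hr0⟩ := hσ (e 0)
  obtain ⟨r1, hr1⟩ := hσ (e 1)
  have t1 := terminal' (Ω := fun c ρ => ρ (e 0) = e 1 ∧ Om n π e H c ρ) hr0 (h01 ▸ n10)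
    (fun _ _ _ k => h01 ▸ k.1)
  have t2 := terminal' (Ω := fun c ρ => ρ (e 1) = e 2 ∧ Om n π e H c ρ) hr1 (h12 ▸ n21)
    (fun _ _ _ k => h12 ▸ k.1)
  have t3 := terminal2 (Ω := fun c ρ => (ρ (e 0) = e 2 ∧ ρ (e 1) = e 1) ∧ Om n π e H c ρ) hr0
    h01 h12 n10 n20 n21.symm (fun c c' ρ hc k => ⟨k.1, Om_loc c c' ρ hc k.2⟩) (fun _ _ k => k.1)
  rw [← h01, Om_term hs sH l0 l1 l0 (by decide),
    ind_congr (and_iff_right (Equiv.swap_apply_left _ _))] at t1
  rw [← h12, Om_term hs sH l1 l2 l1 (by decide),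
    ind_congr (and_iff_right (Equiv.swap_apply_left _ _)),
    Tot_base (e 1) (e 0) (fun c ρ => ind_congr (and_congr_right' (Om_neg c ρ)))] at t2
  rw [Om_term hs sH l0 l2 l1 (by decide), ind_congr (and_iff_right ⟨Equiv.swap_apply_left _ _,
    Equiv.swap_apply_of_ne_of_ne n10 n21.symm⟩)] at t3
  have z : N σ g n π e H = ind (tau H = true) := by
    rw [N_base g (e 0), tau, ind_xor', ind_xor', ← t1, ← t2, ← t3, ← Tot_add, ← Tot_add]
    refine Tot_congr (fun c ρ hv => ?_)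
    by_cases k : Om n π e H c ρ
    swap
    · simp [ind, k]
    have := of_all hn hs hv.1.1 k.1 (P := okT H) (fun u v u' v' h1 h2 => by
      unfold okT
      rw [sH u v u' v' h1 h2, h1 0 l0 1 l1, h1 1 l1 2 l2, h1 0 l0 2 l2, h1 1 l1 1 l1,
        h1 0 l0 0 l0, h1 2 l2 2 l2, h2 0 l0 1 l1, h2 1 l1 2 l2]) h
    rw [okT, k.2, adj hv h01, adj hv h12] at this
    simp only [uo, Bool.not_true, Bool.or_false, Bool.or_eq_true, Bool.and_eq_true,
      decide_eq_true_iff] at this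
    simp only [k, and_true]
    rcases this with j | j | j
    · have j' : ρ (e 1) = e 0 := by rw [← j, hv.1.1]
      simp [ind, j, j', n21.symm, n20.symm]
    · have j' : ρ (e 0) ≠ e 1 := fun i => n20 (by rw [← j, ← i, hv.1.1])
      simp [ind, j, j', n21]
    · simp [ind, j.1, j.2, n21, n21.symm]
  rw [← hH, N_px, hG.1 g π e hs, hH] at z
  rw [← hk, ind_xor']
  linear_combination z + zmod2_add_self (ind (k' = true)) - 2 * zmod2_add_self (ind (k' = true))

end Pool.Agent.Lib.MP_061452_co.TC
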