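import Pool.Agent.Lib.MP_061452_co.TC.Loc

set_option autoImplicit false

namespace Pool.Agent.Lib.MP_061452_co.TC

def th (u : Orc) (a b c : ℕ) : Bool := u a b && u c c
def used (u : Orc) (a b c : ℕ) : Bool := th u a b c || (th u a c b || th u b c a)
def mono (v : Orc) (a b c : ℕ) : Bool := v a b && v b c
def eqt (u v : Orc) (a b c z : ℕ) : Bool :=
  (th u a b c && v c z) || ((th u a c b && v b z) || (th u b c a && v a z))
def eq2 (u v : Orc) (a b c d e f : ℕ) : Bool :=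
  (th u a b c && eqt u v d e f c) ||
    ((th u a c b && eqt u v d e f b) || (th u b c a && eqt u v d e f a))
def one2 (u v : Orc) (a b c d e f : ℕ) : Bool :=
  (used u a b c && mono v d e f) || (used u d e f && mono v a b c)
def cr (u v : Orc) (k l k' l' : ℕ) : Bool := u k l && (v k' l' && eqt u v 0 1 2 k')
def t3 (u v : Orc) (a b c : ℕ) : Bool := th u a b c && (eqt u v 3 4 5 c && eqt u v 6 7 8 c)

def I1 : Pr := fun u _ => u 0 1
def U3 : Pr := fun u _ => used u 0 1 2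
def I2 : Pr := fun u _ => u 0 1 && used u 2 3 4
def M4 : Pr := fun u _ => (u 0 1 && u 2 3) || ((u 0 2 && u 1 3) || (u 0 3 && u 1 2))
def V3 : Pr := fun u v => (u 0 1 && v 2 3) || ((u 0 2 && v 1 3) || (u 0 3 && v 1 2))
def V4 : Pr := fun u v => (u 0 1 && mono v 2 3 4) || ((u 0 2 && mono v 1 3 4) ||
  ((u 0 3 && mono v 1 2 4) || (u 0 4 && mono v 1 2 3)))
def P2 : Pr := fun u v => one2 u v 0 1 2 3 4 5
def G4 : Pr := fun u v => u 0 1 && ((u 2 3 && v 4 5) || ((u 2 4 && v 3 5) || ((u 2 5 && v 3 4) ||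
  ((u 3 4 && v 2 5) || ((u 3 5 && v 2 4) || (u 4 5 && v 2 3))))))
def W6 : Pr := fun u v => (th u 0 2 1 && (mono v 3 4 5 || eqt u v 3 4 5 1)) ||
  (th u 1 2 0 && (mono v 3 4 5 || eqt u v 3 4 5 0))
def R2 : Pr := fun u v => u 6 7 && (one2 u v 0 1 2 3 4 5 || eq2 u v 0 1 2 3 4 5)
def PS : Pr := fun u v => (v 6 7 && one2 u v 0 1 2 3 4 5) || (u 6 7 && eq2 u v 0 1 2 3 4 5)
def XI : Pr := fun u v =>
  (mono v 0 1 2 && ((u 3 4 && v 5 6) || (u 5 6 && v 3 4))) ||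
    ((used u 0 1 2 && (v 3 4 && (v 5 6 && !v 3 5))) ||
      (cr u v 3 5 4 6 || (cr u v 3 6 4 5 || (cr u v 4 5 3 6 || cr u v 4 6 3 5))))
def P3 : Pr := fun u v =>
  (used u 0 1 2 && (mono v 3 4 5 && mono v 6 7 8)) || ((mono v 0 1 2 && one2 u v 3 4 5 6 7 8) ||
    (t3 u v 0 1 2 || (t3 u v 0 2 1 || t3 u v 1 2 0)))

end Pool.Agent.Lib.MP_061452_co.TC
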