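import Pool.Agent.Lib.MP_061452_co.TC.Chain
import Pool.Agent.Lib.MP_061452_co.TC.ChkG
import Pool.Agent.Lib.MP_061452_co.Rooted

set_option autoImplicit false

namespace Pool.Agent.Lib.MP_061452_co.TC

open Function

variable {α : Type} {σ : Equiv.Perm α} {Sm : α → α → Prop}

/-- The class of the point has at least three elements. -/
def Big3 (Sm : α → α → Prop) (p : α) : Prop := ∃ q r, q ≠ p ∧ r ≠ p ∧ q ≠ r ∧ Sm p q ∧ Sm p r

/-- The class of the point has at least four elements. -/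
def Big4 (Sm : α → α → Prop) (p : α) : Prop :=
  ∃ q r s, q ≠ p ∧ r ≠ p ∧ s ≠ p ∧ q ≠ r ∧ q ≠ s ∧ r ≠ s ∧ Sm p q ∧ Sm p r ∧ Sm p s

/-- A valid state that uses a point and respects the classes. -/
def Fits [DecidableEq α] (σ : Equiv.Perm α) (Sm : α → α → Prop) : Prop :=
  ∃ g c ρ, Valid σ g c ρ ∧ (∃ p, ρ p ≠ p) ∧ (∀ p, ρ p ≠ p → Sm p (ρ p)) ∧
    (∀ p q, ρ p ≠ p → ρ q ≠ q → Sm p q → q = p ∨ q = ρ p) ∧
      ∀ p q, ρ p = p → ρ q = q → Sm p q → c p = c q

theorem exists_of_Tot [DecidableEq α] [Fintype α] {g : α} {Ω : (α → Bool) → (α → α) → Prop}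
    (h : Tot σ g (fun c ρ => ind (Ω c ρ)) = 1) : ∃ c ρ, Valid σ g c ρ ∧ Ω c ρ := by
  by_contra hn
  rw [Tot_congr (f' := fun _ _ => 0) (fun c ρ hv => ind_neg (fun k => hn ⟨c, ρ, hv, k⟩)),
    Tot_zero] at h
  exact absurd h (by decide)

theorem fits_claws [DecidableEq α] [Fintype α] (hσ : Cyc σ) (eqv : Equivalence Sm) (e : ℕ → α)
    (inj : ∀ a < 9, ∀ b < 9, e a = e b → a = b)
    (h1 : ∀ a < 9, ∀ b < 9, Sm (e a) (e b) ↔ a / 3 = b / 3)
    (h2 : ∀ p, Big3 Sm p → Sp 9 e p) : Fits σ Sm := by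
  classical
  have out : ∀ p q, ¬ Sp 9 e p → Sm p q → ¬ Sp 9 e q := by
    rintro p _ hp hs ⟨a, ha, rfl⟩
    have l1 : 3 * (a / 3) < 9 := by omega
    have l2 : 3 * (a / 3) + 1 < 9 := by omega
    refine hp (h2 p ⟨e (3 * (a / 3)), e (3 * (a / 3) + 1), fun j => hp ⟨_, l1, j⟩,
      fun j => hp ⟨_, l2, j⟩, fun j => ?_, eqv.trans hs ((h1 _ ha _ l1).2 (by omega)),
      eqv.trans hs ((h1 _ ha _ l2).2 (by omega))⟩)
    have := inj _ l1 _ l2 j
    omega
  have ex : ∀ p, ∃ p', (p' = p ∨ (¬ Sp 9 e p ∧ Sm p p')) ∧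
      ∀ q, ¬ Sp 9 e p → q ≠ p → Sm p q → q = p' := by
    intro p
    by_cases k : ∃ q, ¬ Sp 9 e p ∧ q ≠ p ∧ Sm p q
    · obtain ⟨q, k1, k2, k3⟩ := k
      refine ⟨q, Or.inr ⟨k1, k3⟩, fun q' _ j1 j2 => ?_⟩
      by_contra n
      exact k1 (h2 p ⟨q', q, j1, k2, n, j2, k3⟩)
    · exact ⟨p, Or.inl rfl, fun q k1 k2 k3 => absurd ⟨q, k1, k2, k3⟩ k⟩
  choose π p1 p2 using ex
  have hπ : Involutive π := by
    intro p
    by_cases k : π p = p
    · rw [k, k]
    obtain ⟨k1, k2⟩ := (p1 p).resolve_left k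
    exact (p2 (π p) p (out _ _ k1 k2) (Ne.symm k) (eqv.symm k2)).symm
  have hs : St 9 π e := ⟨hπ, inj, fun a ha => (p1 _).resolve_right (fun k => k.1 ⟨a, ha, rfl⟩)⟩
  obtain ⟨c, ρ, hv, hB, hP⟩ := exists_of_Tot ((id_P3 hσ (e 0) π e hs).trans (ind_pos rfl))
  have hρ := hv.1.1
  have hf := of_all (by decide) hs hρ hB (P := fun u v => !P3 u v || fit u v)
    (fun u v u' v' k1 k2 => by
      beta_reduce
      rw [supp_P3 u v u' v' k1 k2, supp_fit u v u' v' k1 k2]) c_fit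
  rw [hP, Bool.not_true, Bool.false_or, fit, Bool.and_eq_true] at hf
  have hab : ∀ a < 9, ∀ b < 9, (a / 3 = b / 3 → (ρ (e a) = e a ∨ ρ (e b) = e b ∨ b = a ∨
      ρ (e a) = e b) ∧ (ρ (e a) = e a → ρ (e b) = e b → c (e a) = c (e b))) ∧
        (ρ (e a) = e b → a / 3 = b / 3) := by
    intro a ha b hb
    have := allBelow_spec 9 (allBelow_spec 9 hf.2 a ha) b hb
    unfold fitp uo vo at this
    rw [beq_dec, beq_dec] at this
    by_cases k : a / 3 = b / 3
    · rw [decide_eq_true k, cond_true] at this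
      simp only [Bool.and_eq_true, Bool.or_eq_true, decide_eq_true_iff, Bool.not_eq_true',
        decide_eq_false_iff_not] at this
      exact ⟨fun _ => ⟨this.1, fun j1 j2 => by have := this.2; tauto⟩, fun _ => k⟩
    · rw [decide_eq_false k, cond_false] at this
      exact ⟨fun j => absurd j k, fun j => by simp [j] at this⟩
  have small : ∀ p, ρ p ≠ p → ¬ Sp 9 e p → π p ≠ p ∧ ρ p = π p := by
    intro p hp k
    have n : π p ≠ p := fun j => hp (hB.2 p j k)
    exact ⟨n, (hB.1 p n).resolve_right (fun j => hp j.1)⟩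
  refine ⟨e 0, c, ρ, hv, ?_, fun p hp => ?_, fun p q hp hq hpq => ?_, fun p q hp hq hpq => ?_⟩
  · by_contra n
    have n' : ∀ p, ρ p = p := fun p => by_contra fun j => n ⟨p, j⟩
    have := hf.1
    simp [uo, n'] at this
  · by_cases k : Sp 9 e p
    · obtain ⟨a, ha, rfl⟩ := k
      obtain ⟨b, hb, j⟩ := closure hs hρ hB ha
      rw [← j]
      exact (h1 a ha b hb).2 ((hab a ha b hb).2 j.symm)
    · obtain ⟨j1, j2⟩ := small p hp k
      rw [j2]; exact ((p1 p).resolve_left j1).2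
  · by_cases k : Sp 9 e p
    · have k' : Sp 9 e q := by_contra fun j => out q p j (eqv.symm hpq) k
      obtain ⟨a, ha, rfl⟩ := k
      obtain ⟨b, hb, rfl⟩ := k'
      rcases ((hab a ha b hb).1 ((h1 a ha b hb).1 hpq)).1 with j | j | j | j
      exacts [absurd j hp, absurd j hq, Or.inl (congrArg e j), Or.inr j.symm]
    · by_cases j : q = p
      · exact Or.inl j
      · right; rw [(small p hp k).2]; exact p2 p q k j hpq
  · by_cases k : Sp 9 e p
    · have k' : Sp 9 e q := by_contra fun j => out q p j (eqv.symm hpq) k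
      obtain ⟨a, ha, rfl⟩ := k
      obtain ⟨b, hb, rfl⟩ := k'
      exact ((hab a ha b hb).1 ((h1 a ha b hb).1 hpq)).2 hp hq
    · by_cases j : q = p
      · rw [j]
      have j' := p2 p q k j hpq
      rcases hB.1 p (j' ▸ j) with i | i
      · exact absurd (j'.trans (i.symm.trans hp)) j
      · rw [j']; exact i.2.2

theorem fits_root [DecidableEq α] [Fintype α] (hσ : Cyc σ) (eqv : Equivalence Sm) {g h : α}
    (hg : h ≠ g) (hs : Sm g h) (h4 : ¬ Big4 Sm g)
    (hone : ∀ p q, Big3 Sm p → Big3 Sm q → ¬ Sm g p → ¬ Sm g q → Sm p q) : Fits σ Sm := by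
  obtain ⟨r, hr⟩ := hσ g
  have big : ∀ p, Big g h Sm p → Big3 Sm p ∧ ¬ Sm g p := by
    rintro p ⟨a1, _, q, r, b1, _, b3, _, b5, b6, b7, b8, b9⟩
    exact ⟨⟨q, r, b5, b6, b7, b8, b9⟩, fun k => h4 ⟨p, q, r, a1, b1, b3, b5.symm, b6.symm, b7, k,
      eqv.trans k b8, eqv.trans k b9⟩⟩
  obtain ⟨c, ρ, hv, k0, k1, k2, k3⟩ := exists_labelled hr hg eqv
    (fun p q hp hq => hone p q (big p hp).1 (big q hq).1 (big p hp).2 (big q hq).2)
  have hρ := hv.1.1
  have k0' : ρ h = g := by rw [← k0, hρ g]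
  have no : ∀ q, ρ q ≠ q → ¬ (q = g ∨ q = h) → ¬ Sm g q := fun q hq n k =>
    h4 ⟨h, q, ρ q, hg, fun j => n (Or.inl j), fun j => n (Or.inr (by rw [← hρ q, j, k0])),
      fun j => n (Or.inr j.symm), fun j => n (Or.inl (by rw [← hρ q, ← j, k0'])), Ne.symm hq, hs, k,
      eqv.trans k (k1 q hq n)⟩
  have rt : ∀ p, p = g ∨ p = h → Sm g p := by
    rintro p (rfl | rfl)
    exacts [eqv.refl _, hs]
  refine ⟨g, c, ρ, hv, ⟨g, by rw [k0]; exact hg⟩, fun p hp => ?_, fun p q hp hq hpq => ?_, k3⟩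
  · by_cases n : p = g ∨ p = h
    · rcases n with j | j
      · rw [j, k0]; exact hs
      · rw [j, k0']; exact eqv.symm hs
    · exact k1 p hp n
  · by_cases n : p = g ∨ p = h <;> by_cases n' : q = g ∨ q = h
    · rcases n with j | j <;> rcases n' with j' | j'
      · left; rw [j, j']
      · right; rw [j, j', k0]
      · right; rw [j, j', k0']
      · left; rw [j, j']
    · exact absurd (eqv.trans (rt p n) hpq) (no q hq n')
    · exact absurd (eqv.trans (rt q n') (eqv.symm hpq)) (no p hp n)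
    · exact k2 p q hp hq n n' hpq

theorem fits_adj [DecidableEq α] [Fintype α] (hσ : Cyc σ) (eqv : Equivalence Sm) {g : α}
    (hg : σ g ≠ g) (hs : Sm g (σ g)) : Fits σ Sm := by
  obtain ⟨r, hr⟩ := hσ g
  obtain ⟨c, ρ, hv, rfl, rfl⟩ := exists_of_Tot (terminal
    (Ω := fun c ρ => c = (fun p => decide (p ≠ g)) ∧ ρ = Equiv.swap g (σ g)) hr hg
    (fun c ρ _ k => by rw [k.2, Equiv.swap_apply_left]) ⟨rfl, rfl⟩)
  have us : ∀ p, Equiv.swap g (σ g) p ≠ p → p = g ∨ p = σ g := fun p hp => by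
    by_contra n
    rw [not_or] at n
    exact hp (Equiv.swap_apply_of_ne_of_ne n.1 n.2)
  have fx : ∀ p, Equiv.swap g (σ g) p = p → p ≠ g := fun p hp j => by
    rw [j, Equiv.swap_apply_left] at hp; exact hg hp
  refine ⟨g, _, _, hv, ⟨g, by rw [Equiv.swap_apply_left]; exact hg⟩, fun p hp => ?_,
    fun p q hp hq _ => ?_, fun p q hp hq _ => by simp [fx p hp, fx q hq]⟩
  · rcases us p hp with j | j
    · rw [j, Equiv.swap_apply_left]; exact hs
    · rw [j, Equiv.swap_apply_right]; exact eqv.symm hs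
  · rcases us p hp with j | j <;> rcases us q hq with j' | j' <;> simp [j, j']

theorem fits [DecidableEq α] [Fintype α] (hσ : Cyc σ) (eqv : Equivalence Sm) {g : α}
    (hg : σ g ≠ g) (h2 : ∀ p, ∃ q, q ≠ p ∧ Sm p q)
    (hA : ∀ p q r s, Big3 Sm p → Big3 Sm q → Big3 Sm r → Big3 Sm s → ¬ Sm p q → ¬ Sm p r →
      ¬ Sm q r → Sm p s ∨ Sm q s ∨ Sm r s)
    (hB : ∀ p q r, Big4 Sm p → Big3 Sm q → Big3 Sm r → ¬ Sm p q → ¬ Sm p r → Sm q r)
    (hC : ∀ p q, Big4 Sm p → Big4 Sm q → Sm p q) : Fits σ Sm := by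
  classical
  by_cases H3 : ∃ p q r, Big3 Sm p ∧ Big3 Sm q ∧ Big3 Sm r ∧ ¬ Sm p q ∧ ¬ Sm p r ∧ ¬ Sm q r
  · obtain ⟨p, q, r, b1, b2, b3, n1, n2, n3⟩ := H3
    have n1' : ¬ Sm q p := fun k => n1 (eqv.symm k)
    have n2' : ¬ Sm r p := fun k => n2 (eqv.symm k)
    have n3' : ¬ Sm r q := fun k => n3 (eqv.symm k)
    let P : ℕ → α := fun i => if i = 0 then p else if i = 1 then q else r
    have P0 : P 0 = p := rfl
    have P1 : P 1 = q := rfl
    have P2 : P 2 = r := rfl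
    have bP : ∀ i, Big3 Sm (P i) := fun i => by
      simp only [P]; split_ifs <;> assumption
    have nP : ∀ i < 3, ∀ j < 3, Sm (P i) (P j) → i = j := fun i hi j hj k => by
      interval_cases i <;> interval_cases j <;> simp_all
    have sP : ∀ i < 3, ¬ Big4 Sm (P i) := fun i hi k => by
      interval_cases i
      exacts [n3 (hB _ _ _ k b2 b3 n1 n2), n2 (hB _ _ _ k b1 b3 n1' n3),
        n1 (hB _ _ _ k b1 b2 n2' n3')]
    choose Q R q1 q2 q3 q4 q5 using bP
    let B : ℕ → ℕ → α := fun i j => if j = 0 then P i else if j = 1 then Q i else R i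
    have sB : ∀ i j, Sm (P i) (B i j) := fun i j => by
      simp only [B]; split_ifs
      exacts [eqv.refl _, q4 i, q5 i]
    have iB : ∀ i, ∀ j < 3, ∀ j' < 3, B i j = B i j' → j = j' := fun i j hj j' hj' k => by
      interval_cases j <;> interval_cases j'
      exacts [rfl, absurd k.symm (q1 i), absurd k.symm (q2 i), absurd k (q1 i), rfl,
        absurd k (q3 i), absurd k (q2 i), absurd k.symm (q3 i), rfl]
    have h1 : ∀ a < 9, ∀ b < 9, Sm (B (a / 3) (a % 3)) (B (b / 3) (b % 3)) ↔ a / 3 = b / 3 :=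
      fun a ha b hb => ⟨fun k => nP _ (by omega) _ (by omega)
        (eqv.trans (sB _ _) (eqv.trans k (eqv.symm (sB _ _)))),
        fun k => eqv.trans (eqv.symm (sB _ _)) (k ▸ sB _ _)⟩
    refine fits_claws hσ eqv (fun a => B (a / 3) (a % 3)) (fun a ha b hb k => ?_) h1
      (fun s hs => ?_)
    · have k1 := (h1 a ha b hb).1 (k ▸ eqv.refl _)
      rw [← k1] at k
      have := iB _ _ (by omega) _ (by omega) k
      omega
    · have : ∃ i < 3, Sm (P i) s := by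
        rcases hA p q r s b1 b2 b3 hs n1 n2 n3 with k | k | k
        exacts [⟨0, by decide, k⟩, ⟨1, by decide, k⟩, ⟨2, by decide, k⟩]
      obtain ⟨i, hi, k⟩ := this
      have mk : ∀ j < 3, B i j = s → Sp 9 (fun a => B (a / 3) (a % 3)) s := fun j hj e =>
        ⟨3 * i + j, by omega, by
          beta_reduce
          rw [← e, show (3 * i + j) / 3 = i by omega, show (3 * i + j) % 3 = j by omega]⟩
      by_contra n
      exact sP i hi ⟨Q i, R i, s, q1 i, q2 i, fun j => n (mk 0 (by decide) j.symm), q3 i,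
        fun j => n (mk 1 (by decide) j), fun j => n (mk 2 (by decide) j), q4 i, q5 i, k⟩
  by_cases HR : ∃ x, ¬ Big4 Sm x ∧
      ∀ p q, Big3 Sm p → Big3 Sm q → ¬ Sm x p → ¬ Sm x q → Sm p q
  · obtain ⟨x, k1, k2⟩ := HR
    obtain ⟨y, k3, k4⟩ := h2 x
    exact fits_root hσ eqv k3 k4 k1 k2
  have all : ∀ x, Big4 Sm x := by
    intro x
    by_contra n
    have key : ∀ p, Big3 Sm p → Big4 Sm p := fun p hp => by
      by_contra n'
      refine HR ⟨p, n', fun a b ha hb k1 k2 => ?_⟩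
      by_contra k3
      exact H3 ⟨p, a, b, hp, ha, hb, k1, k2, k3⟩
    exact HR ⟨x, n, fun a b ha hb _ _ => hC a b (key a ha) (key b hb)⟩
  exact fits_adj hσ eqv hg (hC _ _ (all _) (all _))

end Pool.Agent.Lib.MP_061452_co.TC
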