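import Pool.Agent.Lib.MP_061452_co.TC.Frame

set_option autoImplicit false

namespace Pool.Agent.Lib.MP_061452_co.TC

open Function

variable {α : Type} [DecidableEq α] {σ : Equiv.Perm α} {g : α} {n : ℕ} {π : α → α} {e : ℕ → α}
  {F : Pr} {c : α → Bool} {ρ : α → α} {k kd : Bool} {i j : α}

theorem uo_swap (i j : α) : uo (fun a => Equiv.swap i j (e a)) ρ = uo e (cj i j ρ) := by
  funext a b
  exact decide_eq_decide.2 (by unfold cj; rw [Equiv.swap_apply_eq_iff])

theorem vo_swap (i j : α) :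
    vo (fun a => Equiv.swap i j (e a)) c ρ = vo e (c ∘ Equiv.swap i j) (cj i j ρ) := by
  funext a b
  exact decide_eq_decide.2 (by rw [cj_fix, cj_fix]; rfl)

theorem Sp_swap (i j p : α) :
    Sp n (fun a => Equiv.swap i j (e a)) p ↔ Sp n e (Equiv.swap i j p) :=
  exists_congr fun a => and_congr_right' (by rw [Equiv.swap_apply_eq_iff])

theorem Om_swap (i j : α) : Om n π e F (c ∘ Equiv.swap i j) (cj i j ρ) ↔
    Om n (cj i j π) (fun a => Equiv.swap i j (e a)) F c ρ := by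
  unfold Om
  rw [uo_swap, vo_swap]
  refine and_congr ⟨fun h => ?_, fun h => ?_⟩ Iff.rfl
  · have := h.transport i j
    rw [comp_swap_swap, cj_cj] at this
    exact this.mono (fun p _ hx hn => absurd ((Sp_swap i j p).2 hx) hn)
  · have := h.transport i j
    rw [cj_cj] at this
    refine this.mono (fun p _ hx hn => absurd ?_ hn)
    rwa [Sp_swap, Equiv.swap_apply_self] at hx

theorem St.swap (hs : St n π e) (i j : α) :
    St n (cj i j π) (fun a => Equiv.swap i j (e a)) :=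
  ⟨cj_invol hs.1, fun a ha b hb k => hs.2.1 a ha b hb ((Equiv.swap i j).injective k),
    fun a ha => by rw [cj_fix, Equiv.swap_apply_self]; exact hs.2.2 a ha⟩

theorem vo_flp (hs : St n π e) {b : ℕ} (hb : b < n) :
    ∀ x < n, ∀ y < n, vo e (flp (e b) c) ρ x y = fl b (uo e ρ) (vo e c ρ) x y := by
  intro x hx y hy
  unfold fl uo vo
  rw [beq_dec, beq_dec]
  by_cases h1 : x = b <;> by_cases h2 : y = b
  · simp [h1, h2]
  · rw [flp_ne (mt (hs.2.1 y hy b hb) h2), h1, flp_self]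
    by_cases k1 : ρ (e b) = e b <;> by_cases k2 : ρ (e y) = e y <;> cases c (e b) <;>
      cases c (e y) <;> simp [h2, k1, k2]
  · rw [flp_ne (mt (hs.2.1 x hx b hb) h1), h2, flp_self]
    by_cases k1 : ρ (e b) = e b <;> by_cases k2 : ρ (e x) = e x <;> cases c (e b) <;>
      cases c (e x) <;> simp [h1, k1, k2]
  · rw [flp_ne (mt (hs.2.1 x hx b hb) h1), flp_ne (mt (hs.2.1 y hy b hb) h2)]
    simp [h1, h2]

theorem base_flp (hπ : Involutive π) (hj : π j = j) {X : α → Prop} :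
    Base π X (flp j c) ρ ↔ Base π X c ρ :=
  ⟨fun h => by have := h.flp hπ hj; rwa [flp_flp] at this, fun h => h.flp hπ hj⟩

theorem Om_der (hs : St n π e) (hF : Supp n F) {b : ℕ} (hb : b < n) :
    ind (ρ (e b) = e b) * (ind (Om n π e F c ρ) + ind (Om n π e F (flp (e b) c) ρ)) =
      ind (Om n π e (der b F) c ρ) := by
  unfold Om der
  rw [base_flp hs.1 (hs.2.2 b hb), hF _ _ _ _ (fun _ _ _ _ => rfl) (vo_flp hs hb), ← ind_xor,
    ← ind_and]
  refine ind_congr ?_
  rw [Bool.and_eq_true, uo, decide_eq_true_iff]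
  tauto

theorem Om_flp_out (hF : Supp n F) (hi : ¬ Sp n e i) :
    F (uo e ρ) (vo e (flp i c) ρ) = F (uo e ρ) (vo e c ρ) := by
  refine hF _ _ _ _ (fun _ _ _ _ => rfl) (fun a ha b hb => ?_)
  unfold vo
  rw [flp_ne (fun j => hi ⟨a, ha, j⟩), flp_ne (fun j => hi ⟨b, hb, j⟩)]

theorem unmerge_fix {l : α} (hij : i ≠ j) (hil : i ≠ l) (hjl : j ≠ l) (hρ : Involutive ρ)
    (ri : ρ i = i) (rj : ρ j = j) (rl : ρ l ≠ l) (p : α) :
    unmerge i j l ρ p = p ↔ p ≠ i ∧ p ≠ j ∧ ρ p = p := by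
  obtain ⟨f1, f2⟩ := unmerge_facts hil hjl hρ ri rj
  by_cases e1 : p = i
  · rw [e1, unmerge_i]; simp [f1]
  by_cases e2 : p = j
  · rw [e2, unmerge_j hij]; simp [hjl.symm]
  by_cases e3 : p = l
  · rw [e3, unmerge_g hil hjl]; simp [hjl, rl]
  by_cases e4 : p = ρ l
  · rw [e4, unmerge_k rfl f1 f2 rl, hρ l]; simp [f1.symm, rl.symm]
  rw [unmerge_o e1 e2 e3 e4]; simp [e1, e2]

theorem Om_unmerge_leg (hs : St n π e) (hF : Supp n F) (hρ : Involutive ρ) {a l : ℕ}
    (ha : a < n) (h2 : 2 < n) (hl : l < n) (a2 : a ≠ 2) (al : a ≠ l) (l2 : 2 ≠ l)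
    (ri : ρ (e a) = e a) (rj : ρ (e 2) = e 2) :
    ind (ρ (e a) = e a ∧ ρ (e 2) = e 2 ∧ ρ (e l) ≠ e l) *
      ind (Om n π e F c (unmerge (e a) (e 2) (e l) ρ)) = ind (Om n π e (T3 a l F) c ρ) := by
  have inj : ∀ x < n, ∀ y < n, e x = e y ↔ x = y := fun x hx y hy =>
    ⟨hs.2.1 x hx y hy, congrArg e⟩
  have hij : e a ≠ e 2 := mt (inj a ha 2 h2).1 a2
  have hil : e a ≠ e l := mt (inj a ha l hl).1 al
  have hjl : e 2 ≠ e l := mt (inj 2 h2 l hl).1 l2
  rw [← ind_and]
  refine ind_congr ?_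
  unfold Om T3
  by_cases rl : ρ (e l) = e l
  · simp [rl, uo]
  have hB : Base π (Sp n e) c (unmerge (e a) (e 2) (e l) ρ) ↔ Base π (Sp n e) c ρ := by
    by_cases sp : Sp n e (ρ (e l))
    · obtain ⟨b, hb, eb⟩ := sp
      exact base_unmerge_free hs.1 (hs.2.2 a ha) (hs.2.2 2 h2) (hs.2.2 l hl)
        (eb ▸ hs.2.2 b hb) ri rj ⟨a, ha, rfl⟩ ⟨2, h2, rfl⟩ ⟨l, hl, rfl⟩ ⟨b, hb, eb⟩ ⟨l, hl, rfl⟩
        ⟨b, hb, eb⟩ (fun _ _ _ _ _ => Iff.rfl)
    · refine ⟨fun h => absurd ?_ sp, fun h => absurd (closure hs hρ h hl) sp⟩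
      have := closure hs (unmerge_invol hij hil hjl hρ ri rj rl) h ha
      rwa [unmerge_i] at this
  rw [hB, hF _ _ (umg a 2 l (uo e ρ)) (vmg a 2 (vo e c ρ))]
  · simp [ri, rj, rl, uo]
  · intro x hx y hy
    unfold umg uo unmerge
    simp only [beq_dec, inj x hx a ha, inj x hx 2 h2, inj x hx l hl, Bool.cond_decide]
    split_ifs with k1 k2 k3 k4 k5 k5
    · rfl
    · exact decide_eq_decide.2 ((inj l hl y hy).trans eq_comm)
    · exact decide_eq_decide.2 ((inj 2 h2 y hy).trans eq_comm)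
    · exact decide_eq_decide.2 ((inj a ha y hy).trans eq_comm)
    · exact absurd k4.symm k5
    · exact absurd k5.symm k4
    · rfl
  · intro x hx y hy
    unfold vmg vo
    simp only [unmerge_fix hij hil hjl hρ ri rj rl, beq_dec, ne_eq, inj x hx a ha, inj x hx 2 h2,
      inj y hy a ha, inj y hy 2 h2]
    by_cases k1 : x = a <;> by_cases k2 : x = 2 <;> by_cases k3 : y = a <;> by_cases k4 : y = 2 <;>
      simp [k1, k2, k3, k4]

/-- The right hand side of the exchange formula. -/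
noncomputable def RHS (n : ℕ) (π : α → α) (e : ℕ → α) (F : Pr) (i : α) (c : α → Bool)
    (ρ : α → α) : ZMod 2 :=
  ind (ρ i ≠ i ∧ ρ (e 2) = e 2) * (ind (Om n π e F c ρ) + ind (Om n π e F (flp (e 2) c) ρ)) +
    ind (ρ i = i ∧ ρ (e 2) ≠ e 2) * (ind (Om n π e F c ρ) + ind (Om n π e F (flp i c) ρ)) +
    (ind (ρ i = i ∧ ρ (e 2) = e 2 ∧ ρ (e 0) ≠ e 0) *
      ind (Om n π e F c (unmerge i (e 2) (e 0) ρ)) +
    ind (ρ i = i ∧ ρ (e 2) = e 2 ∧ ρ (e 1) ≠ e 1) * ind (Om n π e F c (unmerge i (e 2) (e 1) ρ)))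

theorem RHS_leg (hs : St n π e) (hF : Supp n F) (hρ : Involutive ρ) {a : ℕ} (ha : a < n)
    (h3 : 3 ≤ a) : RHS n π e F (e a) c ρ = ind (Om n π e (D a F) c ρ) := by
  have h2 : 2 < n := by omega
  unfold RHS
  by_cases ri : ρ (e a) = e a <;> by_cases rj : ρ (e 2) = e 2
  · rw [Om_unmerge_leg hs hF hρ ha h2 (by omega) (by omega) (by omega) (by omega) ri rj,
      Om_unmerge_leg hs hF hρ ha h2 (by omega) (by omega) (by omega) (by omega) ri rj,
      ind_neg (fun v => v.1 ri), ind_neg (P := _ ∧ _ ≠ _) (fun v => v.2 rj)]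
    unfold Om D
    rw [← ind_xor]
    simp [uo, ri, rj]
  · rw [ind_neg (fun v => v.1 ri), ind_congr (and_iff_left rj), Om_der hs hF ha,
      ind_neg (P := _ ∧ _ ∧ _) (fun v => rj v.2.1), ind_neg (P := _ ∧ _ ∧ _) (fun v => rj v.2.1)]
    unfold Om D
    simp [uo, ri, rj]
  · rw [ind_congr (and_iff_right ri), Om_der hs hF h2, ind_neg (P := _ ∧ _ ≠ _) (fun v => ri v.1),
      ind_neg (P := _ ∧ _ ∧ _) (fun v => ri v.1), ind_neg (P := _ ∧ _ ∧ _) (fun v => ri v.1)]
    unfold Om D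
    simp [uo, ri]
  · rw [ind_congr (and_iff_right ri), Om_der hs hF h2, ind_neg (P := _ ∧ _ ≠ _) (fun v => ri v.1),
      ind_neg (P := _ ∧ _ ∧ _) (fun v => ri v.1), ind_neg (P := _ ∧ _ ∧ _) (fun v => ri v.1)]
    unfold Om D
    simp [uo, ri]

theorem RHS_free (hs : St n π e) (hF : Supp n F) (h3 : 3 ≤ n) (hρ : Involutive ρ) (hi : π i = i)
    (hx : ¬ Sp n e i) : RHS n π e F i c ρ = 0 := by
  have z3 : ∀ l < n, l ≠ 2 → ind (ρ i = i ∧ ρ (e 2) = e 2 ∧ ρ (e l) ≠ e l) *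
      ind (Om n π e F c (unmerge i (e 2) (e l) ρ)) = 0 := by
    intro l hl l2
    rw [← ind_and]
    refine ind_neg (fun k => ?_)
    have := k.2.1.2 i hi hx
    rw [unmerge_i] at this
    exact (unmerge_facts (fun j => hx ⟨l, hl, j.symm⟩)
      (fun j => l2 (hs.2.1 2 h3 l hl j).symm) hρ k.1.1 k.1.2.1).1 this
  have z2 : Om n π e F (flp i c) ρ ↔ Om n π e F c ρ := by
    unfold Om; rw [base_flp hs.1 hi, Om_flp_out hF hx]
  unfold RHS
  rw [z3 0 (by omega) (by decide), z3 1 (by omega) (by decide), ind_congr z2, zmod2_add_self]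
  by_cases ri : ρ i = i
  · rw [ind_neg (fun v => v.1 ri)]; simp
  · rw [ind_neg (P := Om _ _ _ _ _ _) (fun k => ri (k.1.2 i hi hx)),
      ind_neg (P := Om _ _ _ _ _ _) (fun k => ri (k.1.2 i hi hx))]
    simp

theorem St.rem (hs : St n π e) (i : α) : St n (rem π i) e :=
  ⟨rem_invol hs.1, hs.2.1, fun a ha => rem_fix (hs.2.2 a ha)⟩

theorem St.move (hs : St n π e) (hi : π i = i) (hj : π j = j) :
    St n π (fun a => Equiv.swap j i (e a)) := by
  refine ⟨hs.1, (hs.swap j i).2.1, fun a ha => ?_⟩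
  beta_reduce
  by_cases e1 : e a = j
  · rw [e1, Equiv.swap_apply_left, hi]
  by_cases e2 : e a = i
  · rw [e2, Equiv.swap_apply_right, hj]
  rw [Equiv.swap_apply_of_ne_of_ne e1 e2, hs.2.2 a ha]

theorem RHS_chord (hs : St n π e) (hF : Supp n F) (h3 : 3 ≤ n) (hv : Valid σ g c ρ)
    (hi : π i ≠ i) (hj : e 2 = σ i)
    (hp : ∀ (π : α → α) (e : ℕ → α), St n π e → Om n π e F c ρ →
      ρ (e 2) = e 2 ∨ ρ (e 2) = e 0 ∨ ρ (e 2) = e 1) :
    RHS n π e F i c ρ = ind (Om n π e (der 2 F) c ρ) + ind (Om n (rem π i) e (der 2 F) c ρ) +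
      ind (Om n (rem π i) e F c ρ) +
      ind (Om n (rem π i) (fun a => Equiv.swap (e 2) (π i) (e a)) F c ρ) := by
  have hρ := hv.1.1
  have h2 : 2 < n := h3
  have ni : ∀ a < n, i ≠ e a ∧ π i ≠ e a := fun a ha => chord_ne hs.1 hi (hs.2.2 a ha)
  have x1 : ¬ Sp n e i := fun ⟨a, ha, k⟩ => (ni a ha).1 k.symm
  have x2 : ¬ Sp n e (π i) := fun ⟨a, ha, k⟩ => (ni a ha).2 k.symm
  have hs1 := hs.rem i
  have hs2 := hs1.move (i := π i) (j := e 2) rem_i' (hs1.2.2 2 h2)
  set e' : ℕ → α := fun a => Equiv.swap (e 2) (π i) (e a) with he'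
  have e2 : e' 2 = π i := Equiv.swap_apply_left _ _
  have eo : ∀ a < n, a ≠ 2 → e' a = e a := fun a ha k =>
    Equiv.swap_apply_of_ne_of_ne (mt (hs.2.1 a ha 2 h2) k) (ni a ha).2.symm
  have sp : ∀ p, p ≠ e 2 → p ≠ π i → (Sp n e p ↔ Sp n e' p) := fun p k1 k2 => by
    rw [he', Sp_swap, Equiv.swap_apply_of_ne_of_ne k1 k2]
  have y1 : ¬ Sp n e' i := by rw [← sp i (ni 2 h2).1 hi.symm]; exact x1
  have y2 : ¬ Sp n e' (e 2) := by rw [he', Sp_swap, Equiv.swap_apply_left]; exact x2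
  have ch : ∀ (G : Pr) (c : α → Bool), (ρ i = i ∧ Om n π e G c ρ) ↔
      (Om n (rem π i) e G c ρ ∧ c i = c (π i)) := fun G c => by
    unfold Om
    rw [← and_assoc, base_chord hs.1 hi x1 x2]
    tauto
  have a1 : ind (ρ i ≠ i ∧ ρ (e 2) = e 2) *
      (ind (Om n π e F c ρ) + ind (Om n π e F (flp (e 2) c) ρ)) = ind (Om n π e (der 2 F) c ρ) +
        ind (Om n (rem π i) e (der 2 F) c ρ ∧ c i = c (π i)) := by
    rw [ind_and, mul_assoc, Om_der hs hF h2, ← ind_and, ← ind_congr (ch _ c),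
      ind_split (Om n π e (der 2 F) c ρ) (ρ i = i)]
    linear_combination -zmod2_add_self (ind (ρ i = i ∧ Om n π e (der 2 F) c ρ))
  have a2 : ind (ρ i = i ∧ ρ (e 2) ≠ e 2) *
      (ind (Om n π e F c ρ) + ind (Om n π e F (flp i c) ρ)) =
        ind (¬ ρ (e 2) = e 2 ∧ Om n (rem π i) e F c ρ) := by
    rw [and_comm, ind_and, mul_assoc, mul_add, ← ind_and, ← ind_and, ind_and (¬ _),
      ind_bool (W := Om n (rem π i) e F c ρ) (a := c i) (b := c (π i)) (ch F c)]
    rw [ch, flp_self, flp_ne hi]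
    unfold Om
    rw [base_flp hs1.1 rem_i, Om_flp_out hF x1]
  have a3 : ∀ l < n, l ≠ 2 → ind (ρ i = i ∧ ρ (e 2) = e 2 ∧ ρ (e l) ≠ e l) *
      ind (Om n π e F c (unmerge i (e 2) (e l) ρ)) =
        ind (ρ (π i) = e l ∧ Om n (rem π i) e' F c ρ) := by
    intro l hl l2
    have hjl : e 2 ≠ e l := fun j => l2 (hs.2.1 2 h2 l hl j).symm
    have key := fun ri rj rg => base_unmerge_chord (X := Sp n e) (X' := Sp n e') (c := c) hs.1 hi
      (hs.2.2 2 h2) (hs.2.2 l hl) (ni l hl).1 hjl hρ ri rj rg ⟨l, hl, rfl⟩ ⟨2, h2, rfl⟩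
      ⟨l, hl, eo l hl l2⟩ ⟨2, h2, e2⟩ (fun p _ k1 _ k2 => sp p k1 k2)
    have kF : ρ i = i → ρ (e 2) = e 2 → ρ (e l) = π i →
        F (uo e (unmerge i (e 2) (e l) ρ)) (vo e c (unmerge i (e 2) (e l) ρ)) =
          F (uo e' ρ) (vo e' c ρ) := by
      intro ri rj rl
      have rl' : ρ (π i) = e l := by rw [← rl, hρ]
      have um : ∀ x < n, unmerge i (e 2) (e l) ρ (e x) = cj (e 2) (π i) ρ (e x) := by
        intro x hx
        unfold cj
        by_cases k1 : e x = e 2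
        · rw [k1, unmerge_j (ni 2 h2).1, Equiv.swap_apply_left, rl',
            Equiv.swap_apply_of_ne_of_ne hjl.symm (ni l hl).2.symm]
        rw [Equiv.swap_apply_of_ne_of_ne k1 (ni x hx).2.symm]
        by_cases k2 : e x = e l
        · rw [k2, unmerge_g (ni l hl).1 hjl, rl, Equiv.swap_apply_right]
        rw [unmerge_o (ni x hx).1.symm k1 k2 (by rw [rl]; exact (ni x hx).2.symm),
          Equiv.swap_apply_of_ne_of_ne]
        · exact fun j => k1 (hρ.injective (j.trans rj.symm))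
        · exact fun j => k2 (hρ.injective (j.trans rl.symm))
      rw [he', uo_swap, vo_swap]
      refine hF _ _ _ _ (fun x hx y _ => ?_) (fun x hx y hy => ?_)
      · unfold uo; rw [um x hx]
      · unfold vo
        rw [um x hx, um y hy]
        have cc : ∀ x < n, cj (e 2) (π i) ρ (e x) = e x →
            (c ∘ Equiv.swap (e 2) (π i)) (e x) = c (e x) := fun x hx k => by
          have k1 : e x ≠ e 2 := fun j => by
            rw [← um x hx, j, unmerge_j (ni 2 h2).1] at k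
            exact hjl k.symm
          simp only [comp, Equiv.swap_apply_of_ne_of_ne k1 (ni x hx).2.symm]
        exact decide_eq_decide.2 (and_congr_right fun k1 => and_congr_right fun k2 => by
          rw [cc x hx k1, cc y hy k2])
    rw [← ind_and]
    refine ind_congr ⟨fun ⟨⟨ri, rj, rg⟩, b, f⟩ => ?_, fun ⟨rl', b, f⟩ => ?_⟩
    · obtain ⟨rl, b'⟩ := (key ri rj rg).1 b
      exact ⟨by rw [← rl, hρ], b', kF ri rj rl ▸ f⟩
    · have rl : ρ (e l) = π i := by rw [← rl', hρ]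
      have ri := b.2 i rem_i y1
      have rj := b.2 _ (hs1.2.2 2 h2) y2
      have rg : ρ (e l) ≠ e l := by rw [rl]; exact (ni l hl).2
      exact ⟨⟨ri, rj, rg⟩, (key ri rj rg).2 ⟨rl, b⟩, (kF ri rj rl).symm ▸ f⟩
  have a4 : ind (ρ (π i) = e 0 ∧ Om n (rem π i) e' F c ρ) +
      ind (ρ (π i) = e 1 ∧ Om n (rem π i) e' F c ρ) =
        ind (¬ ρ (π i) = π i ∧ Om n (rem π i) e' F c ρ) := by
    by_cases k : Om n (rem π i) e' F c ρ
    swap
    · simp [ind, k]
    have n01 : e 0 ≠ e 1 := fun j => by have := hs.2.1 0 (by omega) 1 (by omega) j; omega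
    have := hp _ _ hs2 k
    rw [e2, eo 0 (by omega) (by decide), eo 1 (by omega) (by decide)] at this
    have n0 := (ni 0 (by omega)).2
    have n1 := (ni 1 (by omega)).2
    rcases this with j | j | j <;> simp [ind, k, j, n0, n1, n0.symm, n1.symm, n01, n01.symm]
  have a5 : ind (Om n (rem π i) e (der 2 F) c ρ ∧ c i = c (π i)) +
      ind (Om n (rem π i) e (der 2 F) c ρ) + ind (ρ (e 2) = e 2 ∧ Om n (rem π i) e F c ρ) +
        ind (ρ (π i) = π i ∧ Om n (rem π i) e' F c ρ) = 0 := by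
    have bb : (ρ (e 2) = e 2 ∧ Base (rem π i) (Sp n e) c ρ) ↔
        (ρ (π i) = π i ∧ Base (rem π i) (Sp n e') c ρ) := by
      constructor
      · rintro ⟨rj, b⟩
        refine ⟨b.2 _ rem_i' x2, b.mono (fun p _ k1 k2 => ?_)⟩
        by_cases k3 : p = e 2
        · rw [k3, rj]
        · exact absurd ((sp p k3 (fun j => x2 (j ▸ k1))).1 k1) k2
      · rintro ⟨rj, b⟩
        refine ⟨b.2 _ (hs1.2.2 2 h2) y2, b.mono (fun p _ k1 k2 => ?_)⟩
        by_cases k3 : p = π i
        · rw [k3, rj]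
        · exact absurd ((sp p (fun j => y2 (j ▸ k1)) k3).2 k1) k2
    rw [and_comm, ind_and, ← Om_der hs1 hF h2]
    by_cases k : ρ (e 2) = e 2 ∧ Base (rem π i) (Sp n e) c ρ
    swap
    · have k' := mt bb.2 k
      rw [ind_neg (P := _ ∧ Om _ _ e _ _ _) (fun v => k ⟨v.1, v.2.1⟩),
        ind_neg (P := _ ∧ Om _ _ e' _ _ _) (fun v => k' ⟨v.1, v.2.1⟩)]
      by_cases rj : ρ (e 2) = e 2
      · rw [ind_neg (P := Om _ _ _ _ c _) (fun v => k ⟨rj, v.1⟩),
          ind_neg (P := Om _ _ _ _ (flp _ c) _)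
            (fun v => k ⟨rj, (base_flp hs1.1 (hs1.2.2 2 h2)).1 v.1⟩)]
        simp
      · rw [ind_neg rj]; simp
    have k' := bb.1 k
    have cij : c i = c (e 2) := by
      have := (hv.1.2.1 _).1 k.1
      rwa [hj, Equiv.symm_apply_apply, ← hj] at this
    have cjr : cj (e 2) (π i) ρ = ρ := by
      funext p
      unfold cj
      by_cases k1 : p = e 2
      · rw [k1, Equiv.swap_apply_left, k'.1, Equiv.swap_apply_right, k.1]
      by_cases k2 : p = π i
      · rw [k2, Equiv.swap_apply_right, k.1, Equiv.swap_apply_left, k'.1]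
      rw [Equiv.swap_apply_of_ne_of_ne k1 k2, Equiv.swap_apply_of_ne_of_ne]
      · exact fun j => k1 (hρ.injective (j.trans k.1.symm))
      · exact fun j => k2 (hρ.injective (j.trans k'.1.symm))
    have vv : ∀ c' : α → Bool, c' (e 2) = c (π i) → (∀ p, p ≠ e 2 → c' p = c p) →
        F (uo e' ρ) (vo e' c ρ) = F (uo e ρ) (vo e c' ρ) := by
      intro c' k1 k2
      have cc : ∀ x < n, (c ∘ Equiv.swap (e 2) (π i)) (e x) = c' (e x) := fun x hx => by
        by_cases k3 : e x = e 2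
        · simp only [comp, k3, Equiv.swap_apply_left, k1]
        · simp only [comp, Equiv.swap_apply_of_ne_of_ne k3 (ni x hx).2.symm, k2 _ k3]
      rw [he', uo_swap, vo_swap, cjr]
      refine hF _ _ _ _ (fun _ _ _ _ => rfl) (fun x hx y hy => ?_)
      unfold vo
      rw [cc x hx, cc y hy]
    unfold Om
    rw [base_flp hs1.1 (hs1.2.2 2 h2)]
    simp only [k.1, k.2, k'.1, k'.2, true_and]
    by_cases cc : c i = c (π i)
    · rw [vv c (cij ▸ cc) (fun _ _ => rfl), ind_pos cc, ind_pos trivial]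
      linear_combination 2 * zmod2_add_self (ind (F (uo e ρ) (vo e c ρ) = true)) +
        zmod2_add_self (ind (F (uo e ρ) (vo e (flp (e 2) c) ρ) = true))
    · rw [vv (flp (e 2) c) (by
        rw [flp_self, ← cij]; revert cc; cases c i <;> cases c (π i) <;> simp)
        (fun p hp => flp_ne hp c), ind_neg cc, ind_pos trivial]
      linear_combination zmod2_add_self (ind (F (uo e ρ) (vo e c ρ) = true)) +
        zmod2_add_self (ind (F (uo e ρ) (vo e (flp (e 2) c) ρ) = true))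
  unfold RHS
  rw [a1, a2, a3 0 (by omega) (by decide), a3 1 (by omega) (by decide), a4,
    ind_split (Om n (rem π i) e F c ρ) (ρ (e 2) = e 2),
    ind_split (Om n (rem π i) e' F c ρ) (ρ (π i) = π i)]
  linear_combination a5 - zmod2_add_self (ind (Om n (rem π i) e (der 2 F) c ρ)) -
    zmod2_add_self (ind (ρ (e 2) = e 2 ∧ Om n (rem π i) e F c ρ)) -
    zmod2_add_self (ind (ρ (π i) = π i ∧ Om n (rem π i) e' F c ρ))

theorem slides [Fintype α] (hσ : Cyc σ) (h3 : 3 ≤ n) (hn : n ≤ 16) (hF : Supp n F) (L : ℕ)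
    (okL : okrel n n L [] ∧ dg L 0 = 0 ∧ dg L 1 = 2 ∧ dg L 2 = 1)
    (hS : allSt n (okS L F) = true) (hd : Idt σ n (der 2 F) kd)
    (hl : ∀ a, 3 ≤ a → a < n → ∀ (g : α) (π : α → α) (e : ℕ → α), St n π e → e 2 = σ (e a) →
      N σ g n π e (D a F) = 0)
    (ht : ∀ (g : α) (π : α → α) (e : ℕ → α), St n π e → e 1 = σ (e 0) → e 2 = σ (e 1) →
      N σ g n π e F = ind (k = true)) : Idt σ n F k := by
  have l0 : 0 < n := by omega
  have l1 : 1 < n := by omega
  have l2 : 2 < n := h3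
  have sS : Supp n (okS L F) := fun u v u' v' h1 h2 => by
    unfold okS
    rw [hF u v u' v' h1 h2, Supp.rel okL.1 F u v u' v' h1 h2, h1 2 l2 2 l2, h1 2 l2 0 l0,
      h1 2 l2 1 l1]
  have hp : ∀ (c : α → Bool) (ρ : α → α), Involutive ρ → ∀ (π : α → α) (e : ℕ → α), St n π e →
      Om n π e F c ρ → ρ (e 2) = e 2 ∨ ρ (e 2) = e 0 ∨ ρ (e 2) = e 1 := by
    intro c ρ hρ π e hs k
    have := of_all hn hs hρ k.1 sS hS
    rw [okS, k.2, cond_true, Bool.and_eq_true] at this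
    simpa [uo] using this.2
  have sym : ∀ (g : α) (π : α → α) (e : ℕ → α), St n π e →
      N σ g n π e F = N σ g n π (fun a => e (dg L a)) F := by
    intro g π e hs
    refine Tot_congr (fun c ρ hv => ind_congr ?_)
    rw [← Om_rel okL.1 hs]
    refine and_congr_right (fun b => ?_)
    have := of_all hn hs hv.1.1 b sS hS
    unfold okS at this
    revert this
    cases F (uo e ρ) (vo e c ρ) <;> cases rel L [] F (uo e ρ) (vo e c ρ) <;> simp
  intro g π e hs
  generalize hm : ends π = m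
  induction m using Nat.strong_induction_on generalizing π e with
  | _ m ih =>
  have step : ∀ (π : α → α) (e : ℕ → α), St n π e → ends π = m → ∀ i, e 2 = σ i → i ≠ e 0 →
      i ≠ e 1 → i ≠ e 2 → N σ g n π e F =
        N σ g n (cj i (e 2) π) (fun a => Equiv.swap i (e 2) (e a)) F := by
    intro π e hs hm i hj i0 i1 i2
    have n20 : e 2 ≠ e 0 := fun j => by have := hs.2.1 _ l2 _ l0 j; omega
    have n21 : e 2 ≠ e 1 := fun j => by have := hs.2.1 _ l2 _ l1 j; omega
    have n01 : e 0 ≠ e 1 := fun j => by have := hs.2.1 _ l0 _ l1 j; omega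
    have sw := swap2 (Ω := Om n π e F) g hj i2 i0 n20 i1 n21 n01 Om_loc Om_neg
      (fun c ρ hρ k => hp c ρ hρ π e hs k)
    rw [Tot_congr (f := fun c ρ => ind (Om n π e F (c ∘ Equiv.swap i (e 2)) (cj i (e 2) ρ)))
      (fun c ρ _ => ind_congr (Om_swap i (e 2)))] at sw
    have z : Tot σ g (RHS n π e F i) = 0 := by
      by_cases hi : π i = i
      · by_cases hx : Sp n e i
        · obtain ⟨a, ha, rfl⟩ := hx
          have a3 : 3 ≤ a := by
            by_contra h
            rcases (by omega : a = 0 ∨ a = 1 ∨ a = 2) with j | j | j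
            exacts [i0 (by rw [j]), i1 (by rw [j]), i2 (by rw [j])]
          rw [Tot_congr (fun c ρ hv => RHS_leg hs hF hv.1.1 ha a3)]
          exact hl a a3 ha g π e hs hj
        · rw [Tot_congr (fun c ρ hv => RHS_free hs hF h3 hv.1.1 hi hx), Tot_zero]
      · have c1 := ends_rem hi
        have hs1 := hs.rem i
        rw [Tot_congr (fun c ρ hv => RHS_chord hs hF h3 hv hi hj (hp c ρ hv.1.1)), Tot_add,
          Tot_add, Tot_add]
        have b1 := hd g π e hs
        have b2 := hd g _ e hs1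
        have b3 := ih _ (hm ▸ c1) _ e hs1 rfl
        have b4 := ih _ (hm ▸ c1) _ _ (hs1.move (i := π i) (j := e 2) rem_i' (hs1.2.2 2 l2)) rfl
        unfold N at b1 b2 b3 b4
        rw [b1, b2, b3, b4, zmod2_add_self, zero_add, zmod2_add_self]
    have sw' : N σ g n π e F + N σ g n (cj i (e 2) π) (fun a => Equiv.swap i (e 2) (e a)) F =
      Tot σ g (RHS n π e F i) := sw
    rw [z] at sw'
    linear_combination sw' -
      zmod2_add_self (N σ g n (cj i (e 2) π) (fun a => Equiv.swap i (e 2) (e a)) F)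
  obtain ⟨r, hr⟩ := hσ (e 0)
  generalize hg0 : e 0 = g0 at hr
  have phA : ∀ t (π : α → α) (e : ℕ → α), St n π e → ends π = m → e 0 = g0 → e 1 = σ g0 →
      r (e 2) = t → N σ g n π e F = ind (k = true) := by
    intro t
    induction t using Nat.strong_induction_on with
    | _ t iht =>
      intro π e hs hm h0 h1 ht'
      have n20 : e 2 ≠ g0 := fun j => by have := hs.2.1 _ l2 _ l0 (j.trans h0.symm); omega
      have n21 : e 2 ≠ e 1 := fun j => by have := hs.2.1 _ l2 _ l1 j; omega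
      have hlt := hr _ n20
      set i := σ.symm (e 2) with hi
      have hj : e 2 = σ i := by rw [hi]; simp
      by_cases i1 : i = e 1
      · exact ht g π e hs (h0 ▸ h1) (i1 ▸ hj)
      have i0 : i ≠ e 0 := fun j => n21 (by rw [hj, j, h0, h1])
      have i2 : i ≠ e 2 := fun j => by rw [j] at hlt; exact lt_irrefl _ hlt
      rw [step π e hs hm i hj i0 i1 i2]
      refine iht (r i) (ht' ▸ hlt) _ _ (hs.swap _ _) (by rw [ends_cj, hm]) ?_ ?_ ?_
      · rw [← h0]; exact Equiv.swap_apply_of_ne_of_ne i0.symm (h0 ▸ n20.symm)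
      · rw [← h1]; exact Equiv.swap_apply_of_ne_of_ne (Ne.symm i1) n21.symm
      · simp only [Equiv.swap_apply_right]
  have phB : ∀ t (π : α → α) (e : ℕ → α), St n π e → ends π = m → e 0 = g0 →
      r (e 2) ≤ r (e 1) → r (e 2) = t → N σ g n π e F = ind (k = true) := by
    intro t
    induction t using Nat.strong_induction_on with
    | _ t iht =>
      intro π e hs hm h0 h1 ht'
      have n20 : e 2 ≠ g0 := fun j => by have := hs.2.1 _ l2 _ l0 (j.trans h0.symm); omega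
      have n21 : e 2 ≠ e 1 := fun j => by have := hs.2.1 _ l2 _ l1 j; omega
      have hlt := hr _ n20
      set i := σ.symm (e 2) with hi
      have hj : e 2 = σ i := by rw [hi]; simp
      by_cases i0 : i = e 0
      · rw [sym g π e hs]
        refine phA _ π _ (hs.rel okL.1) hm ?_ ?_ rfl
        · rw [okL.2.1, h0]
        · rw [okL.2.2.1, hj, i0, h0]
      have i1 : i ≠ e 1 := fun j => by rw [j] at hlt; omega
      have i2 : i ≠ e 2 := fun j => by rw [j] at hlt; exact lt_irrefl _ hlt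
      rw [step π e hs hm i hj i0 i1 i2]
      refine iht (r i) (ht' ▸ hlt) _ _ (hs.swap _ _) (by rw [ends_cj, hm]) ?_ ?_ ?_
      · rw [← h0]; exact Equiv.swap_apply_of_ne_of_ne (Ne.symm i0) (h0 ▸ n20.symm)
      · rw [Equiv.swap_apply_right, Equiv.swap_apply_of_ne_of_ne i1.symm n21.symm]; omega
      · simp only [Equiv.swap_apply_right]
  rcases le_total (r (e 2)) (r (e 1)) with h | h
  · exact phB _ π e hs hm hg0 h rfl
  · rw [sym g π e hs]
    refine phB _ π _ (hs.rel okL.1) hm ?_ ?_ rfl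
    · rw [okL.2.1, hg0]
    · rw [okL.2.2.1, okL.2.2.2]; exact h

end Pool.Agent.Lib.MP_061452_co.TC
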