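import Pool.Agent.Lib.MP_061452_co.ParF

set_option autoImplicit false

namespace Pool.Agent.Lib.MP_061452_co.TC

open Function

variable {α : Type} [DecidableEq α] {σ : Equiv.Perm α} {g : α}

/-- The permutation is a single cycle: it has a rank function at every base point. -/
def Cyc (σ : Equiv.Perm α) : Prop := ∀ g, ∃ r : α → ℕ, ∀ p, p ≠ g → r (σ.symm p) < r p

theorem cyc_of_rank [Fintype α] {r : α → ℕ} (hr : ∀ p, p ≠ g → r (σ.symm p) < r p) : Cyc σ := by
  classical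
  have h1 : ∀ n p, r p = n → σ.SameCycle g p := by
    intro n
    induction n using Nat.strong_induction_on with
    | _ n ih =>
      intro p hp
      by_cases e : p = g
      · rw [e]
      · have := ih _ (hp ▸ hr p e) _ rfl
        rwa [← Equiv.Perm.sameCycle_apply_right, Equiv.apply_symm_apply] at this
  intro g'
  have h2 : ∀ p, ∃ k : ℕ, (σ ^ k) g' = p := fun p => by
    obtain ⟨k, _, hk⟩ := ((h1 _ g' rfl).symm.trans (h1 _ p rfl)).exists_pow_eq'
    exact ⟨k, hk⟩
  refine ⟨fun p => Nat.find (h2 p), fun p hp => ?_⟩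
  have h3 := Nat.find_spec (h2 p)
  beta_reduce
  generalize Nat.find (h2 p) = k at h3
  cases k with
  | zero => exact absurd h3.symm hp
  | succ k =>
    refine Nat.lt_succ_of_le (Nat.find_min' _ ?_)
    rw [← h3, pow_succ', Equiv.Perm.mul_apply, Equiv.symm_apply_apply]

/-- Exchanging the two colours. -/
def neg (c : α → Bool) : α → Bool := fun p => !c p

omit [DecidableEq α] in
theorem neg_neg' (c : α → Bool) : neg (neg c) = c := by funext p; simp [neg]

theorem flp_neg (j : α) (c : α → Bool) : flp j (neg c) = neg (flp j c) := by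
  funext p
  by_cases h : p = j
  · rw [h, flp_self]; simp [neg, flp_self]
  · rw [flp_ne h]; simp [neg, flp_ne h]

theorem conn_neg {c : α → Bool} {ρ : α → α} (h : Conn σ c ρ) : Conn σ (neg c) ρ := by
  have e1 : ∀ x, col σ (neg c) x = !col σ c x := by
    rintro ⟨p, s⟩; cases s <;> simp [neg]
  have e2 : the σ (neg c) ρ = the σ c ρ := by
    funext x
    unfold the
    rw [e1]
    unfold neg
    cases c (ρ x.1) <;> cases col σ c x <;> rfl
  intro x y hx hy hc
  rw [e2]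
  rw [e1, e1] at hc
  exact h x y hx hy (by simpa using hc)

theorem Tot_base [Fintype α] (g g' : α) {f : (α → Bool) → (α → α) → ZMod 2}
    (hf : ∀ c ρ, f (neg c) ρ = f c ρ) : Tot σ g f = Tot σ g' f := by
  have hinv : Involutive (fun s : (α → Bool) × (α → α) => (neg s.1, s.2)) := by
    intro s; simp only [neg_neg']
  let h : (α → Bool) × (α → α) → ZMod 2 := fun s =>
    ind (Valid σ g s.1 s.2 ∧ s.1 (σ.symm g') = false) * f s.1 s.2
  have e1 : ∑ s : (α → Bool) × (α → α), h (neg s.1, s.2) = ∑ s, h s :=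
    Equiv.sum_comp (hinv.toPerm _) h
  have e2 : Tot σ g f + Tot σ g' f =
      ∑ s, h s + ∑ s : (α → Bool) × (α → α), h (neg s.1, s.2) := by
    unfold Tot
    rw [← Finset.sum_add_distrib, ← Finset.sum_add_distrib]
    refine Finset.sum_congr rfl (fun s _ => ?_)
    obtain ⟨c, ρ⟩ := s
    simp only [h, hf]
    rw [← add_mul, ← add_mul]
    congr 1
    have k : (Involutive ρ ∧ (∀ p, ρ p = p ↔ neg c (σ.symm p) = neg c p)) ∧ Conn σ (neg c) ρ ↔
        (Involutive ρ ∧ (∀ p, ρ p = p ↔ c (σ.symm p) = c p)) ∧ Conn σ c ρ := by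
      refine and_congr (by simp [neg]) ⟨fun k => ?_, conn_neg⟩
      have := conn_neg k
      rwa [neg_neg'] at this
    have v : ∀ g c, Valid σ g c ρ ↔
        ((Involutive ρ ∧ (∀ p, ρ p = p ↔ c (σ.symm p) = c p)) ∧ Conn σ c ρ) ∧
          c (σ.symm g) = true := fun g c => by unfold Valid LV; tauto
    simp only [v, k]
    by_cases w : (Involutive ρ ∧ (∀ p, ρ p = p ↔ c (σ.symm p) = c p)) ∧ Conn σ c ρ
    · simp only [w, true_and, neg, and_self, implies_true]
      cases c (σ.symm g) <;> cases c (σ.symm g') <;> simp [ind] <;> decide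
    · simp only [w, false_and]
  rw [e1, zmod2_add_self] at e2
  linear_combination e2 - zmod2_add_self (Tot σ g' f)

variable {Ω : (α → Bool) → (α → α) → Prop} {i j l l' : α}

theorem swap1 [Fintype α] (g : α) (hj : j = σ i) (hij : i ≠ j) (hil : i ≠ l) (hjl : j ≠ l)
    (hloc : Loc Ω) (hneg : ∀ c ρ, Ω (neg c) ρ ↔ Ω c ρ)
    (hΩ : ∀ c ρ, Involutive ρ → Ω c ρ → ρ j = j ∨ ρ j = l) :
    Tot σ g (fun c ρ => ind (Ω c ρ)) +
      Tot σ g (fun c ρ => ind (Ω (c ∘ Equiv.swap i j) (cj i j ρ))) =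
    Tot σ g (fun c ρ => ind (ρ i ≠ i ∧ ρ j = j) * (ind (Ω c ρ) + ind (Ω (flp j c) ρ)) +
      ind (ρ i = i ∧ ρ j ≠ j) * (ind (Ω c ρ) + ind (Ω (flp i c) ρ)) +
      ind (ρ i = i ∧ ρ j = j ∧ ρ l ≠ l) * ind (Ω c (unmerge i j l ρ))) := by
  rw [Tot_base g l (fun c ρ => ind_congr (hneg c ρ)),
    Tot_base g l (f := fun c ρ => ind (Ω (c ∘ Equiv.swap i j) (cj i j ρ)))
      (fun c ρ => ind_congr (hneg (c ∘ Equiv.swap i j) _)), swap_lemma hj hij hil hjl hloc hΩ]
  exact Tot_base l g (fun c ρ => by simp only [flp_neg, hneg])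

theorem swap2 [Fintype α] (g : α) (hj : j = σ i) (hij : i ≠ j) (hil : i ≠ l) (hjl : j ≠ l)
    (hil' : i ≠ l') (hjl' : j ≠ l') (hll : l ≠ l')
    (hloc : Loc Ω) (hneg : ∀ c ρ, Ω (neg c) ρ ↔ Ω c ρ)
    (hΩ : ∀ c ρ, Involutive ρ → Ω c ρ → ρ j = j ∨ ρ j = l ∨ ρ j = l') :
    Tot σ g (fun c ρ => ind (Ω c ρ)) +
      Tot σ g (fun c ρ => ind (Ω (c ∘ Equiv.swap i j) (cj i j ρ))) =
    Tot σ g (fun c ρ => ind (ρ i ≠ i ∧ ρ j = j) * (ind (Ω c ρ) + ind (Ω (flp j c) ρ)) +
      ind (ρ i = i ∧ ρ j ≠ j) * (ind (Ω c ρ) + ind (Ω (flp i c) ρ)) +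
      (ind (ρ i = i ∧ ρ j = j ∧ ρ l ≠ l) * ind (Ω c (unmerge i j l ρ)) +
      ind (ρ i = i ∧ ρ j = j ∧ ρ l' ≠ l') * ind (Ω c (unmerge i j l' ρ)))) := by
  have s1 := swap1 (Ω := fun c ρ => ¬ ρ j = l' ∧ Ω c ρ) g hj hij hil hjl
    (fun c c' ρ hc k => ⟨k.1, hloc c c' ρ hc k.2⟩) (fun c ρ => and_congr_right' (hneg c ρ))
    (fun c ρ hρ k => by have := hΩ c ρ hρ k.2; tauto)
  have s2 := swap1 (Ω := fun c ρ => ρ j = l' ∧ Ω c ρ) g hj hij hil' hjl'
    (fun c c' ρ hc k => ⟨k.1, hloc c c' ρ hc k.2⟩) (fun c ρ => and_congr_right' (hneg c ρ))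
    (fun c ρ _ k => Or.inr k.1)
  have a1 : Tot σ g (fun c ρ => ind (Ω c ρ)) = Tot σ g (fun c ρ => ind (ρ j = l' ∧ Ω c ρ)) +
      Tot σ g (fun c ρ => ind (¬ ρ j = l' ∧ Ω c ρ)) := by
    rw [← Tot_add]; exact Tot_congr (fun c ρ _ => ind_split _ _)
  have a2 : Tot σ g (fun c ρ => ind (Ω (c ∘ Equiv.swap i j) (cj i j ρ))) =
      Tot σ g (fun c ρ => ind (cj i j ρ j = l' ∧ Ω (c ∘ Equiv.swap i j) (cj i j ρ))) +
      Tot σ g (fun c ρ => ind (¬ cj i j ρ j = l' ∧ Ω (c ∘ Equiv.swap i j) (cj i j ρ))) := by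
    rw [← Tot_add]; exact Tot_congr (fun c ρ _ => ind_split _ _)
  rw [a1, a2, add_add_add_comm, s1, s2, ← Tot_add]
  refine Tot_congr (fun c ρ _ => ?_)
  rw [unmerge_j hij, unmerge_j hij, ind_split (Ω c ρ) (ρ j = l'),
    ind_split (Ω (flp j c) ρ) (ρ j = l'), ind_split (Ω (flp i c) ρ) (ρ j = l'),
    ind_congr (and_iff_right (rfl : l' = l')), ind_congr (and_iff_right hll)]
  ring

theorem terminal' [Fintype α] {r : α → ℕ} (hr : ∀ p, p ≠ g → r (σ.symm p) < r p)
    (hne : σ g ≠ g) (h1 : ∀ c ρ, LV σ g c ρ → Ω c ρ → ρ g = σ g) :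
    Tot σ g (fun c ρ => ind (Ω c ρ)) =
      ind (Ω (fun p => decide (p ≠ g)) (Equiv.swap g (σ g))) := by
  by_cases h2 : Ω (fun p => decide (p ≠ g)) (Equiv.swap g (σ g))
  · rw [ind_pos h2]; exact terminal hr hne h1 h2
  have t1 := terminal (Ω := fun _ ρ => ρ g = σ g) hr hne (fun _ _ _ k => k)
    (Equiv.swap_apply_left _ _)
  have t2 := terminal (Ω := fun c ρ => ¬ Ω c ρ ∧ ρ g = σ g) hr hne (fun _ _ _ k => k.2)
    ⟨h2, Equiv.swap_apply_left _ _⟩
  have t3 : Tot σ g (fun _ ρ => ind (ρ g = σ g)) = Tot σ g (fun c ρ => ind (Ω c ρ)) +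
      Tot σ g (fun c ρ => ind (¬ Ω c ρ ∧ ρ g = σ g)) := by
    rw [← Tot_add]
    refine Tot_congr (fun c ρ hv => ?_)
    rw [ind_split _ (Ω c ρ), ind_congr (and_iff_left_of_imp (h1 c ρ hv.1))]
  rw [ind_neg h2]
  rw [t1, t2] at t3
  linear_combination -t3

/-- The base point is joined to the second point after it, the point between being unused. -/
theorem terminal2 [Fintype α] {r : α → ℕ} (hr : ∀ p, p ≠ g → r (σ.symm p) < r p)
    (hi : i = σ g) (hj : j = σ i) (hig : i ≠ g) (hjg : j ≠ g) (hij : i ≠ j) (hloc : Loc Ω)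
    (h1 : ∀ c ρ, Ω c ρ → ρ g = j ∧ ρ i = i) :
    Tot σ g (fun c ρ => ind (Ω c ρ)) =
      ind (Ω (fun p => decide (p ≠ i)) (Equiv.swap g j)) := by
  have pj : ∀ c ρ, Involutive ρ → Ω c ρ → ρ j = g := fun c ρ hρ k => by
    rw [← (h1 c ρ k).1, hρ g]
  have sw := swap_lemma (g := g) (Ω := fun c ρ => Ω (update c i false) ρ) hj hij hig hjg
    (fun c c' ρ hc k => hloc _ _ ρ (fun p hp => by
      by_cases e : p = i
      · rw [e, update_self, update_self]
      · rw [update_of_ne e, update_of_ne e, hc p hp]) k)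
    (fun c ρ hρ k => Or.inr (pj _ ρ hρ k))
  rw [Tot_congr (f' := fun _ _ => 0) (g := g) (f := fun c ρ => _ + _ + _), Tot_zero,
    terminal' (Ω := fun c ρ => Ω (update (c ∘ Equiv.swap i j) i false) (cj i j ρ)) hr
      (hi ▸ hig)] at sw
  · rw [Tot_congr (f' := fun c ρ => ind (Ω (update c i false) ρ))]
    · have e : cj i j (Equiv.swap g (σ g)) = Equiv.swap g j := by
        funext p
        rw [← hi]
        unfold cj
        by_cases e1 : p = g
        · simp [e1, Equiv.swap_apply_of_ne_of_ne hig.symm hjg.symm]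
        by_cases e2 : p = j
        · simp [e2, Equiv.swap_apply_of_ne_of_ne hig.symm hjg.symm]
        by_cases e3 : p = i
        · simp [e3, Equiv.swap_apply_of_ne_of_ne hjg hij.symm,
            Equiv.swap_apply_of_ne_of_ne hig hij]
        simp [Equiv.swap_apply_of_ne_of_ne, e1, e2, e3]
      rw [e, ind_congr (hloc.iff (c' := fun p => decide (p ≠ i)) (fun p hp => ?_))] at sw
      · linear_combination sw - zmod2_add_self (ind (Ω (fun p => decide (p ≠ i)) (Equiv.swap g j)))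
      · have e1 : p ≠ g := fun e => hjg (by rw [e, Equiv.swap_apply_left] at hp; exact hp)
        have e2 : p ≠ j := fun e => hjg (by rw [e, Equiv.swap_apply_right] at hp; exact hp.symm)
        by_cases e3 : p = i
        · simp [e3]
        · simp [e1, e3, Equiv.swap_apply_of_ne_of_ne e3 e2]
    · intro c ρ hv
      have key : ρ g = j ∧ ρ i = i → update c i false = c := by
        rintro ⟨k1, k2⟩
        have u := hv.1.used (p := g) (by rw [k1]; exact hjg)
        have w := (hv.1.2.1 i).1 k2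
        rw [hv.1.2.2] at u
        rw [hi, Equiv.symm_apply_apply, ← hi] at w
        rw [update_eq_self_iff, ← w]
        revert u; cases c g <;> simp
      refine ind_congr ⟨fun k => by rw [key (h1 _ _ k)]; exact k, fun k => ?_⟩
      rwa [key (h1 _ _ k)] at k
  · intro c ρ _ k
    have := (h1 _ _ k).1
    unfold cj at this
    rw [Equiv.swap_apply_of_ne_of_ne hig.symm hjg.symm, Equiv.swap_apply_eq_iff,
      Equiv.swap_apply_right] at this
    rw [this, hi]
  · intro c ρ hv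
    have z1 : ind (ρ i ≠ i ∧ ρ j = j) * (ind (Ω (update c i false) ρ) +
        ind (Ω (update (flp j c) i false) ρ)) = 0 := by
      by_cases e : ρ i = i
      · rw [ind_neg (fun v => v.1 e), zero_mul]
      · rw [ind_neg (P := Ω _ _) (fun k => e (h1 _ _ k).2),
          ind_neg (P := Ω _ _) (fun k => e (h1 _ _ k).2)]; simp
    have z2 : update (flp i c) i false = update c i false := by simp [flp]
    have z3 : ind (ρ i = i ∧ ρ j = j ∧ ρ g ≠ g) *
        ind (Ω (update c i false) (unmerge i j g ρ)) = 0 := by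
      rw [← ind_and]
      refine ind_neg (fun k => ?_)
      have := (h1 _ _ k.2).2
      rw [unmerge_i] at this
      exact (unmerge_facts hig hjg hv.1.1 k.1.1 k.1.2.1).1 this
    rw [z1, z2, z3, zmod2_add_self]; simp

end Pool.Agent.Lib.MP_061452_co.TC
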